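import Mathlib

/-!
Counting lemmas on finite sets of integers: quadruples `(a, b, c, d)` with `a + c = b + d + e`.
-/

set_option autoImplicit false

open Finset

namespace Pool.Agent.V11202.SQ

/-- a finite set of integers with bounded differences -/
theorem card_le_of_diff (S : Finset ℤ) {L : ℝ} (hL : 0 ≤ L)
    (h : ∀ a ∈ S, ∀ b ∈ S, (a : ℝ) - b ≤ L) : (S.card : ℝ) ≤ L + 1 := by
  rcases S.eq_empty_or_nonempty with rfl | hne
  · simp; linarith
  · have h1 := h _ (S.max'_mem hne) _ (S.min'_mem hne)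
    have hsub : S ⊆ Finset.Icc (S.min' hne) (S.max' hne) :=
      fun x hx => mem_Icc.2 ⟨S.min'_le x hx, S.le_max' x hx⟩
    have h2 := card_le_card hsub
    rw [Int.card_Icc] at h2
    have h4 : S.min' hne ≤ S.max' hne := S.min'_le _ (S.max'_mem hne)
    have h3 : ((S.max' hne + 1 - S.min' hne).toNat : ℤ) = S.max' hne + 1 - S.min' hne :=
      Int.toNat_of_nonneg (by omega)
    have h5 : ((S.max' hne + 1 - S.min' hne).toNat : ℝ) =
        (S.max' hne : ℝ) + 1 - (S.min' hne : ℝ) := by
      exact_mod_cast h3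
    have h6 : (S.card : ℝ) ≤ ((S.max' hne + 1 - S.min' hne).toNat : ℝ) := by exact_mod_cast h2
    rw [h5] at h6
    linarith

/-- few differences have many representations -/
theorem heavy (A B : Finset ℤ) {μ : ℝ} (hμ : 0 < μ) :
    ((((A ×ˢ B).image (fun p => p.1 - p.2)).filter
      (fun w => μ * (B.card : ℝ) < ((A.filter (fun a => a - w ∈ B)).card : ℝ))).card : ℝ) ≤
      (A.card : ℝ) / μ := by
  classical
  set H := ((A ×ˢ B).image (fun p => p.1 - p.2)).filter
      (fun w => μ * (B.card : ℝ) < ((A.filter (fun a => a - w ∈ B)).card : ℝ)) with hH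
  rcases Nat.eq_zero_or_pos B.card with hB | hB
  · have h0 : B = ∅ := card_eq_zero.1 hB
    have : H = ∅ := by
      rw [hH, h0]; simp
    rw [this]
    simp
    positivity
  · have h1 : ∑ w ∈ H, (A.filter (fun a => a - w ∈ B)).card ≤ A.card * B.card := by
      rw [← card_sigma, ← card_product]
      apply card_le_card_of_injOn (fun x => (x.2, x.2 - x.1))
      · intro x hx
        simp only [coe_sigma, Set.mem_sigma_iff, mem_coe, mem_filter] at hx
        simp only [coe_product, Set.mem_prod, mem_coe]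
        exact ⟨hx.2.1, hx.2.2⟩
      · intro x _ y _ hxy
        simp only [Prod.mk.injEq] at hxy
        obtain ⟨e1, e2⟩ := hxy
        have e3 : x.1 = y.1 := by
          rw [e1] at e2
          exact sub_right_injective e2
        exact Sigma.ext e3 (heq_of_eq e1)
    have h2 : (H.card : ℝ) * (μ * B.card) ≤
        ∑ w ∈ H, ((A.filter (fun a => a - w ∈ B)).card : ℝ) := by
      rw [← nsmul_eq_mul]
      exact card_nsmul_le_sum _ _ _ fun w hw => (mem_filter.1 hw).2.le
    have h3 : (H.card : ℝ) * (μ * B.card) ≤ A.card * B.card := by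
      refine h2.trans ?_
      exact_mod_cast h1
    have h4 : (0 : ℝ) < B.card := by exact_mod_cast hB
    rw [le_div_iff₀ hμ]
    have h5 : ((H.card : ℝ) * μ) * B.card ≤ A.card * B.card := by linarith
    exact le_of_mul_le_mul_right h5 h4

/-- centres of squares with sides on given lines -/
theorem cross (A B C D : Finset ℤ) (e : ℤ) (Z : Finset (ℤ × ℤ))
    (hZ : ∀ z ∈ Z, ∃ a ∈ A, ∃ b ∈ B, ∃ c ∈ C, ∃ d ∈ D,
      z.1 = a - c ∧ z.2 = b - d ∧ a + c = b + d + e)
    {μ : ℝ} (hμ : 0 < μ) :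
    (Z.card : ℝ) ≤ 2 * μ * ((B.card : ℝ) * C.card * D.card) + (A.card : ℝ) ^ 2 / μ ^ 2 := by
  classical
  set al : ℤ → ℕ := fun w => (A.filter (fun a => a - w ∈ B)).card with hal
  set be : ℤ → ℕ := fun u => (A.filter (fun a => a - u ∈ D)).card with hbe
  set Z1 : Finset (ℤ × ℤ) := ((C ×ˢ D).filter
      (fun p => (al (p.2 - p.1 + e) : ℝ) ≤ μ * B.card)).biUnion
      (fun p => (A.filter (fun a => a - (p.2 - p.1 + e) ∈ B)).image
        (fun a => (a - p.1, a - (p.2 - p.1 + e) - p.2))) with hZ1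
  set Z2 : Finset (ℤ × ℤ) := ((B ×ˢ C).filter
      (fun p => (be (p.1 - p.2 + e) : ℝ) ≤ μ * D.card)).biUnion
      (fun p => (A.filter (fun a => a - (p.1 - p.2 + e) ∈ D)).image
        (fun a => (a - p.2, p.1 - (a - (p.1 - p.2 + e))))) with hZ2
  set Hw := ((A ×ˢ B).image (fun p => p.1 - p.2)).filter
      (fun w => μ * (B.card : ℝ) < (al w : ℝ)) with hHw
  set Hu := ((A ×ˢ D).image (fun p => p.1 - p.2)).filter
      (fun w => μ * (D.card : ℝ) < (be w : ℝ)) with hHu
  set Z3 : Finset (ℤ × ℤ) := (Hw ×ˢ Hu).image (fun p => (p.2 + p.1 - e, p.2 - p.1)) with hZ3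
  have hsub : Z ⊆ Z1 ∪ Z2 ∪ Z3 := by
    intro z hz
    obtain ⟨a, ha, b, hb, c, hc, d, hd, e1, e2, e3⟩ := hZ z hz
    by_cases h1 : (al (d - c + e) : ℝ) ≤ μ * B.card
    · apply mem_union_left
      apply mem_union_left
      rw [hZ1, mem_biUnion]
      refine ⟨(c, d), mem_filter.2 ⟨mem_product.2 ⟨hc, hd⟩, h1⟩, ?_⟩
      rw [mem_image]
      refine ⟨a, mem_filter.2 ⟨ha, ?_⟩, ?_⟩
      · have : a - ((c, d).2 - (c, d).1 + e) = b := by simp only; omega
        rw [this]; exact hb
      · apply Prod.ext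
        · simp only; omega
        · simp only; omega
    · by_cases h2 : (be (b - c + e) : ℝ) ≤ μ * D.card
      · apply mem_union_left
        apply mem_union_right
        rw [hZ2, mem_biUnion]
        refine ⟨(b, c), mem_filter.2 ⟨mem_product.2 ⟨hb, hc⟩, h2⟩, ?_⟩
        rw [mem_image]
        refine ⟨a, mem_filter.2 ⟨ha, ?_⟩, ?_⟩
        · have : a - ((b, c).1 - (b, c).2 + e) = d := by simp only; omega
          rw [this]; exact hd
        · apply Prod.ext
          · simp only; omega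
          · simp only; omega
      · push Not at h1 h2
        apply mem_union_right
        rw [hZ3, mem_image]
        refine ⟨(d - c + e, b - c + e), mem_product.2 ⟨?_, ?_⟩, ?_⟩
        · rw [hHw, mem_filter]
          refine ⟨mem_image.2 ⟨(a, b), mem_product.2 ⟨ha, hb⟩, ?_⟩, h1⟩
          simp only; omega
        · rw [hHu, mem_filter]
          refine ⟨mem_image.2 ⟨(a, d), mem_product.2 ⟨ha, hd⟩, ?_⟩, h2⟩
          simp only; omega
        · apply Prod.ext
          · simp only; omega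
          · simp only; omega
  have c1 : (Z1.card : ℝ) ≤ μ * ((B.card : ℝ) * C.card * D.card) := by
    have h1 : Z1.card ≤ ∑ p ∈ (C ×ˢ D).filter
      (fun p => (al (p.2 - p.1 + e) : ℝ) ≤ μ * B.card), al (p.2 - p.1 + e) := by
      refine card_biUnion_le.trans (sum_le_sum fun p _ => ?_)
      exact card_image_le
    have h2 : ((∑ p ∈ (C ×ˢ D).filter
      (fun p => (al (p.2 - p.1 + e) : ℝ) ≤ μ * B.card), al (p.2 - p.1 + e) : ℕ) : ℝ) ≤
        ((C ×ˢ D).card : ℝ) * (μ * B.card) := by
      push_cast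
      calc _ ≤ ∑ p ∈ (C ×ˢ D).filter
            (fun p => (al (p.2 - p.1 + e) : ℝ) ≤ μ * B.card), μ * (B.card : ℝ) :=
            sum_le_sum fun p hp => (mem_filter.1 hp).2
        _ = (((C ×ˢ D).filter
            (fun p => (al (p.2 - p.1 + e) : ℝ) ≤ μ * B.card)).card : ℝ) * (μ * B.card) := by
            rw [sum_const, nsmul_eq_mul]
        _ ≤ _ := by
            apply mul_le_mul_of_nonneg_right _ (by positivity)
            exact_mod_cast card_filter_le _ _
    have h3 : (Z1.card : ℝ) ≤ ((C ×ˢ D).card : ℝ) * (μ * B.card) :=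
      le_trans (by exact_mod_cast h1) h2
    rw [card_product] at h3
    push_cast at h3
    linarith
  have c2 : (Z2.card : ℝ) ≤ μ * ((B.card : ℝ) * C.card * D.card) := by
    have h1 : Z2.card ≤ ∑ p ∈ (B ×ˢ C).filter
      (fun p => (be (p.1 - p.2 + e) : ℝ) ≤ μ * D.card), be (p.1 - p.2 + e) := by
      refine card_biUnion_le.trans (sum_le_sum fun p _ => ?_)
      exact card_image_le
    have h2 : ((∑ p ∈ (B ×ˢ C).filter
      (fun p => (be (p.1 - p.2 + e) : ℝ) ≤ μ * D.card), be (p.1 - p.2 + e) : ℕ) : ℝ) ≤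
        ((B ×ˢ C).card : ℝ) * (μ * D.card) := by
      push_cast
      calc _ ≤ ∑ p ∈ (B ×ˢ C).filter
            (fun p => (be (p.1 - p.2 + e) : ℝ) ≤ μ * D.card), μ * (D.card : ℝ) :=
            sum_le_sum fun p hp => (mem_filter.1 hp).2
        _ = (((B ×ˢ C).filter
            (fun p => (be (p.1 - p.2 + e) : ℝ) ≤ μ * D.card)).card : ℝ) * (μ * D.card) := by
            rw [sum_const, nsmul_eq_mul]
        _ ≤ _ := by
            apply mul_le_mul_of_nonneg_right _ (by positivity)
            exact_mod_cast card_filter_le _ _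
    have h3 : (Z2.card : ℝ) ≤ ((B ×ˢ C).card : ℝ) * (μ * D.card) :=
      le_trans (by exact_mod_cast h1) h2
    rw [card_product] at h3
    push_cast at h3
    linarith
  have c3 : (Z3.card : ℝ) ≤ (A.card : ℝ) ^ 2 / μ ^ 2 := by
    have h1 : (Hw.card : ℝ) ≤ (A.card : ℝ) / μ := heavy A B hμ
    have h2 : (Hu.card : ℝ) ≤ (A.card : ℝ) / μ := heavy A D hμ
    have h3 : (Z3.card : ℝ) ≤ (Hw.card : ℝ) * Hu.card := by
      have : Z3.card ≤ Hw.card * Hu.card := card_image_le.trans (by rw [card_product])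
      exact_mod_cast this
    refine h3.trans ((mul_le_mul h1 h2 (by positivity) (by positivity)).trans (le_of_eq ?_))
    rw [← sq, div_pow]
  have h4 : (Z.card : ℝ) ≤ Z1.card + Z2.card + Z3.card := by
    have := (card_le_card hsub).trans (card_union_le _ _)
    have h5 := card_union_le Z1 Z2
    have h6 : Z.card ≤ Z1.card + Z2.card + Z3.card := by omega
    exact_mod_cast h6
  linarith

theorem window0 {ι : Type*} [DecidableEq ι] (X : Finset ι) (P0 P1 P2 P3 : ι → ℤ)
    (h : ∀ z ∈ X, |P0 z + P2 z - P1 z - P3 z| ≤ 1) {F : ℝ} (hF : 0 ≤ F)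
    (fib : ∀ s t : ℤ,
      ((X.filter (fun z => P0 z - P2 z = s ∧ P1 z - P3 z = t)).card : ℝ) ≤ F)
    {μ : ℝ} (hμ : 0 < μ) :
    (X.card : ℝ) ≤ 3 * F * (2 * μ * (((X.image P1).card : ℝ) * (X.image P2).card *
      (X.image P3).card) + ((X.image P0).card : ℝ) ^ 2 / μ ^ 2) := by
  classical
  set W : ℝ := 2 * μ * (((X.image P1).card : ℝ) * (X.image P2).card *
      (X.image P3).card) + ((X.image P0).card : ℝ) ^ 2 / μ ^ 2 with hW
  have key : ∀ e : ℤ, (((X.filter (fun z => P0 z + P2 z - P1 z - P3 z = e))).card : ℝ) ≤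
      F * W := by
    intro e
    set Y := X.filter (fun z => P0 z + P2 z - P1 z - P3 z = e) with hY
    set φ : ι → ℤ × ℤ := fun z => (P0 z - P2 z, P1 z - P3 z) with hφ
    have h1 : Y.card = ∑ b ∈ Y.image φ, (Y.filter (fun z => φ z = b)).card :=
      card_eq_sum_card_image φ Y
    have h2 : ∀ b ∈ Y.image φ, ((Y.filter (fun z => φ z = b)).card : ℝ) ≤ F := by
      intro b _
      refine le_trans ?_ (fib b.1 b.2)
      have : Y.filter (fun z => φ z = b) ⊆
          X.filter (fun z => P0 z - P2 z = b.1 ∧ P1 z - P3 z = b.2) := by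
        intro z hz
        rw [mem_filter] at hz ⊢
        refine ⟨(mem_filter.1 hz.1).1, ?_⟩
        rw [← hz.2]
        exact ⟨rfl, rfl⟩
      exact_mod_cast card_le_card this
    have h3 : (Y.card : ℝ) ≤ F * (Y.image φ).card := by
      rw [h1]
      push_cast
      refine (sum_le_sum h2).trans ?_
      rw [sum_const, nsmul_eq_mul, mul_comm]
    have h4 : ((Y.image φ).card : ℝ) ≤ W := by
      apply cross (X.image P0) (X.image P1) (X.image P2) (X.image P3) e (Y.image φ) _ hμ
      intro z hz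
      obtain ⟨x, hx, rfl⟩ := mem_image.1 hz
      obtain ⟨hxX, hxe⟩ := mem_filter.1 hx
      exact ⟨P0 x, mem_image_of_mem _ hxX, P1 x, mem_image_of_mem _ hxX, P2 x,
        mem_image_of_mem _ hxX, P3 x, mem_image_of_mem _ hxX, rfl, rfl, by omega⟩
    exact h3.trans (mul_le_mul_of_nonneg_left h4 hF)
  have h5 : X.card = ∑ e ∈ Finset.Icc (-1 : ℤ) 1,
      (X.filter (fun z => P0 z + P2 z - P1 z - P3 z = e)).card := by
    apply card_eq_sum_card_fiberwise
    intro z hz
    have := abs_le.1 (h z hz)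
    simp only [coe_Icc, Set.mem_Icc]
    omega
  have h6 : (X.card : ℝ) ≤ ∑ e ∈ Finset.Icc (-1 : ℤ) 1, F * W := by
    rw [h5]
    push_cast
    exact sum_le_sum fun e _ => key e
  have e7 : (1 + 1 - (-1 : ℤ)).toNat = 3 := by decide
  rw [sum_const, Int.card_Icc, nsmul_eq_mul, e7] at h6
  push_cast at h6
  linarith

/-- all squares in one window of directions -/
theorem window {ι : Type*} [DecidableEq ι] (X : Finset ι) (P : Fin 4 → ι → ℤ)
    (h : ∀ z ∈ X, |P 0 z + P 2 z - P 1 z - P 3 z| ≤ 1) {F : ℝ} (hF : 0 ≤ F)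
    (fib : ∀ s t : ℤ,
      ((X.filter (fun z => P 0 z - P 2 z = s ∧ P 1 z - P 3 z = t)).card : ℝ) ≤ F)
    (a : Fin 4) {μ : ℝ} (hμ : 0 < μ) :
    (X.card : ℝ) ≤ 3 * F * (2 * μ * (((X.image (P (a + 1))).card : ℝ) *
      (X.image (P (a + 2))).card * (X.image (P (a + 3))).card) +
      ((X.image (P a)).card : ℝ) ^ 2 / μ ^ 2) := by
  have e0 : ∀ z ∈ X, -1 ≤ P 0 z + P 2 z - P 1 z - P 3 z ∧
      P 0 z + P 2 z - P 1 z - P 3 z ≤ 1 := fun z hz => abs_le.1 (h z hz)
  fin_cases a
  · exact window0 X (P 0) (P 1) (P 2) (P 3) h hF fib hμ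
  · refine window0 X (P 1) (P 2) (P 3) (P 0) ?_ hF ?_ hμ
    · intro z hz
      have := e0 z hz
      rw [abs_le]; omega
    · intro s t
      refine le_trans ?_ (fib (-t) s)
      norm_cast
      apply card_le_card
      intro z hz
      rw [mem_filter] at hz ⊢
      exact ⟨hz.1, by omega, by omega⟩
  · refine window0 X (P 2) (P 3) (P 0) (P 1) ?_ hF ?_ hμ
    · intro z hz
      have := e0 z hz
      rw [abs_le]; omega
    · intro s t
      refine le_trans ?_ (fib (-s) (-t))
      norm_cast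
      apply card_le_card
      intro z hz
      rw [mem_filter] at hz ⊢
      exact ⟨hz.1, by omega, by omega⟩
  · refine window0 X (P 3) (P 0) (P 1) (P 2) ?_ hF ?_ hμ
    · intro z hz
      have := e0 z hz
      rw [abs_le]; omega
    · intro s t
      refine le_trans ?_ (fib t (-s))
      norm_cast
      apply card_le_card
      intro z hz
      rw [mem_filter] at hz ⊢
      exact ⟨hz.1, by omega, by omega⟩

end Pool.Agent.V11202.SQ
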