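import Pool.Agent.V11202.SQ.Red

/-!
Box and packing dimensions of sets containing square boundaries around all points of a square.
-/

set_option autoImplicit false

open MeasureTheory Set Filter Topology

namespace Pool.Agent.V11202.SQ

/-- the boundary of the square with centre `x`, half side length `r` and direction `u`
(a unit complex number) -/
def squareBoundary (x : ℂ) (r : ℝ) (u : ℂ) : Set ℂ :=
  {z | ∃ s t : ℝ, max |s| |t| = 1 ∧ z = x + r * u * (s + t * Complex.I)}

/-- `K` is compact and contains, for every `x` of `[0,1] × [0,1]`, some square boundary centred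
at `x`; the orientation and the side length may depend on `x` -/
def Admissible (K : Set ℂ) : Prop :=
  IsCompact K ∧ ∀ x : ℂ, x.re ∈ Icc (0 : ℝ) 1 → x.im ∈ Icc (0 : ℝ) 1 →
    ∃ r : ℝ, 0 < r ∧ ∃ u : ℂ, ‖u‖ = 1 ∧ squareBoundary x r u ⊆ K

/-- least number of sets of diameter at most `δ` needed to cover `K` -/
noncomputable def coverNum (K : Set ℂ) (δ : ℝ) : ℕ :=
  sInf {n : ℕ | ∃ U : Fin n → Set ℂ, (∀ i, Metric.ediam (U i) ≤ ENNReal.ofReal δ) ∧ K ⊆ ⋃ i, U i}

/-- lower box dimension -/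
noncomputable def lowerBoxDim (K : Set ℂ) : EReal :=
  liminf (fun δ : ℝ => ((Real.log (coverNum K δ) / -Real.log δ : ℝ) : EReal)) (𝓝[>] 0)

/-- upper box dimension -/
noncomputable def upperBoxDim (K : Set ℂ) : EReal :=
  limsup (fun δ : ℝ => ((Real.log (coverNum K δ) / -Real.log δ : ℝ) : EReal)) (𝓝[>] 0)

/-- packing dimension -/
noncomputable def packingDim (K : Set ℂ) : EReal :=
  sInf {d : EReal | ∃ L : ℕ → Set ℂ, (∀ i, Bornology.IsBounded (L i)) ∧ K ⊆ (⋃ i, L i) ∧
    d = ⨆ i, upperBoxDim (L i)}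

theorem coverNum_le {ι : Type*} [Fintype ι] {K : Set ℂ} {δ : ℝ} (U : ι → Set ℂ)
    (hU : ∀ i, Metric.ediam (U i) ≤ ENNReal.ofReal δ) (hK : K ⊆ ⋃ i, U i) :
    coverNum K δ ≤ Fintype.card ι := by
  apply Nat.sInf_le
  refine ⟨fun i => U ((Fintype.equivFin ι).symm i), fun i => hU _, fun y hy => ?_⟩
  obtain ⟨i, hi⟩ := mem_iUnion.1 (hK hy)
  rw [mem_iUnion]
  exact ⟨Fintype.equivFin ι i, by simpa using hi⟩

theorem coverNum_spec {K : Set ℂ} (hK : Bornology.IsBounded K) {δ : ℝ} (hδ : 0 < δ) :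
    ∃ U : Fin (coverNum K δ) → Set ℂ,
      (∀ i, Metric.ediam (U i) ≤ ENNReal.ofReal δ) ∧ K ⊆ ⋃ i, U i := by
  have hne : {n : ℕ | ∃ U : Fin n → Set ℂ, (∀ i, Metric.ediam (U i) ≤ ENNReal.ofReal δ) ∧
      K ⊆ ⋃ i, U i}.Nonempty := by
    have h1 : TotallyBounded K := (hK.isCompact_closure.totallyBounded).subset subset_closure
    obtain ⟨t, ht, hKt⟩ := Metric.totallyBounded_iff.1 h1 (δ / 2) (by positivity)
    have := ht.fintype
    refine ⟨Fintype.card t, fun i => Metric.ball ((Fintype.equivFin t).symm i : ℂ) (δ / 2),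
      fun i => ?_, fun y hy => ?_⟩
    · apply Metric.ediam_le
      intro a ha b hb
      rw [edist_dist]
      apply ENNReal.ofReal_le_ofReal
      have h2 := dist_triangle_right a b ((Fintype.equivFin t).symm i : ℂ)
      rw [Metric.mem_ball] at ha hb
      linarith
    · obtain ⟨c, hc, hyc⟩ := mem_iUnion₂.1 (hKt hy)
      rw [mem_iUnion]
      refine ⟨Fintype.equivFin t ⟨c, hc⟩, ?_⟩
      simpa using hyc
  exact Nat.sInf_mem hne

theorem cells_upper {K : Set ℂ} (hK : Bornology.IsBounded K) {δ : ℝ} (hδ : 0 < δ) {m : ℕ}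
    (hm : δ ≤ 1 / 2 ^ m) : ∃ G : Finset (ℤ × ℤ), (∀ y ∈ K, pc m y ∈ G) ∧
      G.card ≤ 9 * coverNum K δ := by
  classical
  obtain ⟨U, hU, hKU⟩ := coverNum_spec hK hδ
  have h2 : (0 : ℝ) < 2 ^ m := by positivity
  -- the box of a set
  have hbox : ∀ i, ∃ w : ℤ × ℤ, ∀ y ∈ U i, pc m y ∈
      (Finset.Icc (w.1 - 1) (w.1 + 1)) ×ˢ (Finset.Icc (w.2 - 1) (w.2 + 1)) := by
    intro i
    rcases (U i).eq_empty_or_nonempty with h0 | ⟨y0, hy0⟩
    · exact ⟨0, fun y hy => by rw [h0] at hy; exact absurd hy (notMem_empty y)⟩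
    · refine ⟨pc m y0, fun y hy => ?_⟩
      have h3 := Metric.edist_le_of_ediam_le hy hy0 (hU i)
      rw [edist_dist, ENNReal.ofReal_le_ofReal_iff hδ.le, dist_eq_norm] at h3
      have h4 : ‖y - y0‖ ≤ 1 / 2 ^ m := h3.trans hm
      have e1 : |(2 : ℝ) ^ m * y.re - 2 ^ m * y0.re| ≤ ((1 : ℕ) : ℝ) := by
        have h5 := (Complex.abs_re_le_norm (y - y0)).trans h4
        rw [le_div_iff₀ h2, Complex.sub_re, habs] at h5
        rw [Nat.cast_one]
        have : (2 : ℝ) ^ m * y.re - 2 ^ m * y0.re = (y.re - y0.re) * 2 ^ m := by ring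
        rw [this]; exact h5
      have e2 : |(2 : ℝ) ^ m * y.im - 2 ^ m * y0.im| ≤ ((1 : ℕ) : ℝ) := by
        have h5 := (Complex.abs_im_le_norm (y - y0)).trans h4
        rw [le_div_iff₀ h2, Complex.sub_im, habs] at h5
        rw [Nat.cast_one]
        have : (2 : ℝ) ^ m * y.im - 2 ^ m * y0.im = (y.im - y0.im) * 2 ^ m := by ring
        rw [this]; exact h5
      have f1 := floor_near e1
      have f2 := floor_near e2
      rw [abs_le] at f1 f2
      rw [Finset.mem_product, Finset.mem_Icc, Finset.mem_Icc]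
      unfold pc
      simp only
      push_cast at f1 f2
      omega
  choose w hw using hbox
  refine ⟨Finset.univ.biUnion (fun i => (Finset.Icc ((w i).1 - 1) ((w i).1 + 1)) ×ˢ
    (Finset.Icc ((w i).2 - 1) ((w i).2 + 1))), fun y hy => ?_, ?_⟩
  · obtain ⟨i, hi⟩ := mem_iUnion.1 (hKU hy)
    rw [Finset.mem_biUnion]
    exact ⟨i, Finset.mem_univ _, hw i y hi⟩
  · have := Finset.card_biUnion_le_card_mul Finset.univ
      (fun i => (Finset.Icc ((w i).1 - 1) ((w i).1 + 1)) ×ˢ
        (Finset.Icc ((w i).2 - 1) ((w i).2 + 1))) 9 (by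
        intro i _
        rw [Finset.card_product, Int.card_Icc, Int.card_Icc]
        have e1 : ((w i).1 + 1 + 1 - ((w i).1 - 1)).toNat = 3 := by omega
        have e2 : ((w i).2 + 1 + 1 - ((w i).2 - 1)).toNat = 3 := by omega
        rw [e1, e2])
    rw [Finset.card_univ, Fintype.card_fin] at this
    linarith

/-- the limit step -/
theorem lowerBox_of_cells {K : Set ℂ} (hK : Bornology.IsBounded K) {c : ℝ} (hc : 0 < c)
    (h : ∀ (m : ℕ) (G : Finset (ℤ × ℤ)), (∀ y ∈ K, pc m y ∈ G) →
      c * 2 ^ (14 * m) ≤ (G.card : ℝ) ^ 8 * (m + 1) ^ 20) :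
    ((7 / 4 : ℝ) : EReal) ≤ lowerBoxDim K := by
  by_contra hcon
  push Not at hcon
  obtain ⟨s, hs1, hs2⟩ := EReal.lt_iff_exists_real_btwn.1 hcon
  have hs : s < 7 / 4 := by exact_mod_cast hs2
  set ε : ℝ := 7 / 4 - s with hε
  have hε0 : 0 < ε := by rw [hε]; linarith
  set C5 : ℝ := 8 * Real.log 9 + 14 * Real.log 2 - Real.log c with hC5
  -- basic inequality
  have hbasic : ∀ δ : ℝ, 0 < δ → δ < 1 →
      14 * (-Real.log δ) - 20 * Real.log (2 * (-Real.log δ) + 1) - C5 ≤
        8 * Real.log (coverNum K δ) := by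
    intro δ h0 h1
    obtain ⟨m, hm1, hm2⟩ := exists_nat_pow_near (x := 1 / δ) (y := (2 : ℝ))
      (by rw [le_div_iff₀ h0]; linarith) (by norm_num)
    have h2 : (0 : ℝ) < 2 ^ m := by positivity
    have hδm : δ ≤ 1 / 2 ^ m := by
      rw [le_div_iff₀ h2]
      rw [le_div_iff₀ h0] at hm1
      linarith
    obtain ⟨G, hG1, hG2⟩ := cells_upper hK h0 hδm
    have h3 := h m G hG1
    set N : ℝ := (coverNum K δ : ℝ) with hN
    have hGN : (G.card : ℝ) ≤ 9 * N := by
      rw [hN]
      exact_mod_cast hG2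
    have h4 : c * 2 ^ (14 * m) ≤ (9 * N) ^ 8 * (m + 1) ^ 20 :=
      h3.trans (by gcongr)
    have hNp : 0 < N := by
      have hN0 : 0 ≤ N := by rw [hN]; positivity
      rcases eq_or_lt_of_le hN0 with h5 | h5
      · rw [← h5] at h4
        have : (0 : ℝ) < c * 2 ^ (14 * m) := by positivity
        norm_num at h4
        linarith
      · exact h5
    have h6 := Real.log_le_log (by positivity) h4
    rw [Real.log_mul hc.ne' (by positivity), Real.log_pow, Real.log_mul (by positivity)
      (by positivity), Real.log_pow, Real.log_pow, Real.log_mul (by norm_num) hNp.ne'] at h6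
    push_cast at h6
    have hL : -Real.log δ = Real.log (1 / δ) := by rw [one_div, Real.log_inv]
    have h7 : -Real.log δ ≤ (m + 1) * Real.log 2 := by
      rw [hL]
      have := Real.log_le_log (by positivity) hm2.le
      rw [Real.log_pow] at this
      push_cast at this
      exact this
    have h8 : (m : ℝ) * Real.log 2 ≤ -Real.log δ := by
      rw [hL]
      have := Real.log_le_log (by positivity) hm1
      rwa [Real.log_pow] at this
    have hl2 : 1 / 2 < Real.log 2 := by
      have := Real.log_two_gt_d9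
      linarith
    have hm0 : (0 : ℝ) ≤ m := by positivity
    have h9 : (m : ℝ) + 1 ≤ 2 * (-Real.log δ) + 1 := by nlinarith
    have h10 : Real.log ((m : ℝ) + 1) ≤ Real.log (2 * (-Real.log δ) + 1) :=
      Real.log_le_log (by positivity) h9
    rw [hC5]
    nlinarith
  -- eventually large
  have hev : ∀ᶠ δ in 𝓝[>] (0 : ℝ), (s : EReal) ≤
      ((Real.log (coverNum K δ) / -Real.log δ : ℝ) : EReal) := by
    have hLt : Tendsto (fun δ : ℝ => -Real.log δ) (𝓝[>] 0) atTop :=
      tendsto_neg_atBot_atTop.comp Real.tendsto_log_nhdsGT_zero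
    have hA : ∀ᶠ L : ℝ in atTop, 20 * Real.log (2 * L + 1) + C5 ≤ 8 * ε * L := by
      have h1 : ∀ᶠ x : ℝ in atTop, Real.log x ≤ ε / 10 * x := by
        have := Real.isLittleO_log_id_atTop.bound (show 0 < ε / 10 by positivity)
        filter_upwards [this, eventually_ge_atTop 1] with x hx hx1
        rw [id, Real.norm_of_nonneg (by linarith : (0 : ℝ) ≤ x)] at hx
        exact (le_abs_self _).trans hx
      have h2 : Tendsto (fun L : ℝ => 2 * L + 1) atTop atTop :=
        tendsto_atTop_add_const_right _ _ (tendsto_id.const_mul_atTop (by norm_num))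
      filter_upwards [h2.eventually h1, eventually_ge_atTop ((2 * ε + C5) / (4 * ε))] with L hL1 hL2
      rw [div_le_iff₀ (by positivity)] at hL2
      nlinarith
    have h01 : ∀ᶠ δ : ℝ in 𝓝[>] 0, δ < 1 :=
      (eventually_lt_nhds (show (0 : ℝ) < 1 by norm_num)).filter_mono nhdsWithin_le_nhds
    filter_upwards [hLt.eventually hA, h01, self_mem_nhdsWithin, hLt.eventually_gt_atTop 0] with
      δ hδA hδ1 hδ0 hLpos
    have h1 := hbasic δ hδ0 hδ1
    norm_cast
    rw [le_div_iff₀ hLpos]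
    rw [hε] at hδA
    nlinarith
  have h1 : (s : EReal) ≤ lowerBoxDim K := le_liminf_of_le (by isBoundedDefault) hev
  exact absurd h1 (not_le.2 hs1)

/-- the box dimension of a finite union is at most the supremum of the upper box dimensions -/
theorem union_box (L : ℕ → Set ℂ) (hL : ∀ i, Bornology.IsBounded (L i)) (n : ℕ) :
    lowerBoxDim (accumulate L n) ≤ ⨆ i, upperBoxDim (L i) := by
  by_contra hcon
  push Not at hcon
  obtain ⟨s, hs1, hs2⟩ := EReal.lt_iff_exists_real_btwn.1 hcon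
  obtain ⟨s', hs3, hs4⟩ := EReal.lt_iff_exists_real_btwn.1 hs2
  have hss : s < s' := by exact_mod_cast hs3
  have h1 : ∀ i, ∀ᶠ δ in 𝓝[>] (0 : ℝ),
      ((Real.log (coverNum (L i) δ) / -Real.log δ : ℝ) : EReal) < s := by
    intro i
    exact eventually_lt_of_limsup_lt ((le_iSup (fun i => upperBoxDim (L i)) i).trans_lt hs1)
      (by isBoundedDefault)
  have hall : ∀ᶠ δ in 𝓝[>] (0 : ℝ), ∀ i ∈ Finset.range (n + 1),
      ((Real.log (coverNum (L i) δ) / -Real.log δ : ℝ) : EReal) < s := by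
    rw [Filter.eventually_all_finset]
    intro i _
    exact h1 i
  have hsub : ∀ δ : ℝ, 0 < δ → coverNum (accumulate L n) δ ≤
      ∑ i : Fin (n + 1), coverNum (L i) δ := by
    intro δ hδ
    choose U hU hKU using fun i : Fin (n + 1) => coverNum_spec (hL i) hδ
    have := coverNum_le (K := accumulate L n) (δ := δ)
      (ι := Σ i : Fin (n + 1), Fin (coverNum (L i) δ)) (fun p => U p.1 p.2) (fun p => hU p.1 p.2)
      (by
        intro y hy
        obtain ⟨i, hi, hyi⟩ := mem_accumulate.1 hy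
        obtain ⟨j, hj⟩ := mem_iUnion.1 (hKU ⟨i, by omega⟩ hyi)
        rw [mem_iUnion]
        exact ⟨⟨⟨i, by omega⟩, j⟩, hj⟩)
    rw [Fintype.card_sigma] at this
    simpa using this
  have hLt : Tendsto (fun δ : ℝ => -Real.log δ) (𝓝[>] 0) atTop :=
    tendsto_neg_atBot_atTop.comp Real.tendsto_log_nhdsGT_zero
  have hev : ∀ᶠ δ in 𝓝[>] (0 : ℝ),
      ((Real.log (coverNum (accumulate L n) δ) / -Real.log δ : ℝ) : EReal) ≤ s' := by
    have hbig : ∀ᶠ L : ℝ in atTop, Real.log (n + 1) ≤ (s' - s) * L := by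
      filter_upwards [eventually_ge_atTop (Real.log (n + 1) / (s' - s))] with x hx
      rw [div_le_iff₀ (by linarith)] at hx
      linarith
    filter_upwards [hall, hLt.eventually hbig, self_mem_nhdsWithin, hLt.eventually_gt_atTop 0] with
      δ hδa hδb hδ0 hLpos
    have hi : ∀ i : Fin (n + 1), Real.log (coverNum (L i) δ) < s * (-Real.log δ) := by
      intro i
      have h3 := hδa i (Finset.mem_range.2 i.2)
      rw [EReal.coe_lt_coe_iff, div_lt_iff₀ hLpos] at h3
      exact h3
    have hpos : 0 ≤ s * (-Real.log δ) := by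
      have h3 := hi 0
      have h4 : 0 ≤ Real.log (coverNum (L ((0 : Fin (n + 1)) : ℕ)) δ) := Real.log_natCast_nonneg _
      linarith
    have hiN : ∀ i : Fin (n + 1), (coverNum (L i) δ : ℝ) ≤ Real.exp (s * (-Real.log δ)) := by
      intro i
      rcases Nat.eq_zero_or_pos (coverNum (L i) δ) with h0 | h0
      · rw [h0, Nat.cast_zero]; positivity
      · have h5 : (0 : ℝ) < coverNum (L i) δ := by exact_mod_cast h0
        rw [← Real.log_le_iff_le_exp h5]
        exact (hi i).le
    have hN : (coverNum (accumulate L n) δ : ℝ) ≤ (n + 1) * Real.exp (s * (-Real.log δ)) := by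
      have h3 : (coverNum (accumulate L n) δ : ℝ) ≤ ∑ i : Fin (n + 1), (coverNum (L i) δ : ℝ) := by
        exact_mod_cast hsub δ hδ0
      refine h3.trans ((Finset.sum_le_sum fun i _ => hiN i).trans (le_of_eq ?_))
      rw [Finset.sum_const, Finset.card_univ, Fintype.card_fin, nsmul_eq_mul]
      push_cast
      ring
    norm_cast
    rw [div_le_iff₀ hLpos]
    rcases Nat.eq_zero_or_pos (coverNum (accumulate L n) δ) with h0 | h0
    · rw [h0, Nat.cast_zero, Real.log_zero]
      nlinarith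
    · have h5 : (0 : ℝ) < coverNum (accumulate L n) δ := by exact_mod_cast h0
      have h6 := Real.log_le_log h5 hN
      rw [Real.log_mul (by positivity) (by positivity), Real.log_exp] at h6
      linarith
  have h2 : lowerBoxDim (accumulate L n) ≤ s' := by
    unfold lowerBoxDim
    exact (liminf_le_limsup (by isBoundedDefault) (by isBoundedDefault)).trans
      (limsup_le_of_le (by isBoundedDefault) hev)
  exact absurd h2 (not_le.2 hs4)

end Pool.Agent.V11202.SQ
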