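import Pool.Agent.V11202.SQ.Dim

/-!
Exhaustion: a countable cover of the squares is good for many centres at a finite stage.
-/

set_option autoImplicit false

open MeasureTheory Set Filter Topology

namespace Pool.Agent.V11202.SQ

theorem pow_I (n : ℕ) {t : ℝ} (ht : |t| ≤ 1) : ∃ s' t' : ℝ, max |s'| |t'| = 1 ∧
    Complex.I ^ n * (1 + t * Complex.I) = s' + t' * Complex.I := by
  induction n with
  | zero => exact ⟨1, t, by rw [abs_one, max_eq_left ht], by push_cast; ring⟩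
  | succ n ih =>
    obtain ⟨s', t', h1, h2⟩ := ih
    refine ⟨-t', s', by rw [abs_neg, max_comm]; exact h1, ?_⟩
    rw [pow_succ, mul_right_comm, h2]
    push_cast
    have := Complex.I_mul_I
    linear_combination (t' : ℂ) * this

theorem first_quadrant {u : ℂ} (hu : ‖u‖ = 1) : ∃ θ : ℝ, 0 ≤ θ ∧ θ ≤ Real.pi / 2 ∧
    ∃ k : ℕ, Complex.exp ((θ : ℂ) * Complex.I) = u * Complex.I ^ k := by
  have key : ∀ v : ℂ, ‖v‖ = 1 → 0 ≤ v.re → 0 ≤ v.im → ∃ θ : ℝ, 0 ≤ θ ∧ θ ≤ Real.pi / 2 ∧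
      Complex.exp ((θ : ℂ) * Complex.I) = v := by
    intro v hv h1 h2
    refine ⟨Complex.arg v, Complex.arg_nonneg_iff.2 h2, ?_, ?_⟩
    · exact (le_abs_self _).trans (Complex.abs_arg_le_pi_div_two_iff.2 h1)
    · have := Complex.norm_mul_exp_arg_mul_I v
      rw [hv, Complex.ofReal_one, one_mul] at this
      exact this
  have hn : ∀ k : ℕ, ‖u * Complex.I ^ k‖ = 1 := by
    intro k
    rw [norm_mul, norm_pow, Complex.norm_I, one_pow, mul_one, hu]
  rcases le_total 0 u.re with h1 | h1 <;> rcases le_total 0 u.im with h2 | h2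
  · obtain ⟨θ, a, b, e⟩ := key (u * Complex.I ^ 0) (hn 0) (by simpa using h1) (by simpa using h2)
    exact ⟨θ, a, b, 0, e⟩
  · obtain ⟨θ, a, b, e⟩ := key (u * Complex.I ^ 1) (hn 1) (by simp; exact h2) (by simp; exact h1)
    exact ⟨θ, a, b, 1, e⟩
  · obtain ⟨θ, a, b, e⟩ := key (u * Complex.I ^ 3) (hn 3)
      (by rw [Complex.I_pow_three]; simp; exact h2) (by rw [Complex.I_pow_three]; simp; exact h1)
    exact ⟨θ, a, b, 3, e⟩
  · obtain ⟨θ, a, b, e⟩ := key (u * Complex.I ^ 2) (hn 2)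
      (by rw [Complex.I_sq]; simp; exact h1) (by rw [Complex.I_sq]; simp; exact h2)
    exact ⟨θ, a, b, 2, e⟩

theorem side_mem {x u : ℂ} {r θ : ℝ} {k : ℕ}
    (h : Complex.exp ((θ : ℂ) * Complex.I) = u * Complex.I ^ k) (i : Fin 4) {t : ℝ}
    (ht : |t| ≤ 1) : side x r θ i t ∈ squareBoundary x r u := by
  obtain ⟨s', t', h1, h2⟩ := pow_I (k + i) ht
  refine ⟨s', t', h1, ?_⟩
  unfold side
  have e1 : Complex.exp (((θ + (i : ℕ) * (Real.pi / 2) : ℝ) : ℂ) * Complex.I) =
      u * Complex.I ^ (k + i) := by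
    push_cast
    rw [add_mul, Complex.exp_add, h, pow_add, mul_assoc]
    congr 2
    have e2 : ((i : ℕ) : ℂ) * ((Real.pi : ℂ) / 2) * Complex.I =
        ((i : ℕ) : ℂ) * ((Real.pi : ℂ) / 2 * Complex.I) := by ring
    rw [e2, Complex.exp_nat_mul, Complex.exp_pi_div_two_mul_I]
  rw [e1, ← h2]
  ring

/-- the closed unit square -/
def Q : Set ℂ := {x | x.re ∈ Icc (0 : ℝ) 1 ∧ x.im ∈ Icc (0 : ℝ) 1}

theorem volume_Q : volume Q = 1 := by
  have h1 : Q = Complex.measurableEquivRealProd ⁻¹' (Icc (0 : ℝ) 1 ×ˢ Icc (0 : ℝ) 1) := by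
    ext x
    simp [Q, Complex.measurableEquivRealProd_apply]
    tauto
  rw [h1, Complex.volume_preserving_equiv_real_prod.measure_preimage
    (measurableSet_Icc.prod measurableSet_Icc).nullMeasurableSet]
  rw [Measure.volume_eq_prod, Measure.prod_prod]
  simp

theorem exhaust {K : Set ℂ} (hK : ∀ x : ℂ, x.re ∈ Icc (0 : ℝ) 1 → x.im ∈ Icc (0 : ℝ) 1 →
    ∃ r : ℝ, 0 < r ∧ ∃ u : ℂ, ‖u‖ = 1 ∧ squareBoundary x r u ⊆ K)
    (L : ℕ → Set ℂ) (hL : ∀ i, Bornology.IsBounded (L i)) (hKL : K ⊆ ⋃ i, L i) :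
    ∃ n, ((7 / 4 : ℝ) : EReal) ≤ lowerBoxDim (accumulate L n) := by
  set S : ℕ → Set ℂ := fun n => {x | x ∈ Q ∧ ∃ r θ : ℝ, 1 / ((n : ℝ) + 1) ≤ r ∧ 0 ≤ θ ∧
    θ ≤ Real.pi / 2 ∧ ∀ i : Fin 4, 1 ≤ volume {t : ℝ | side x r θ i t ∈ accumulate L n}} with hS
  have hmono : Monotone S := by
    intro a b hab x hx
    obtain ⟨hxQ, r, θ, h1, h2, h3, h4⟩ := hx
    refine ⟨hxQ, r, θ, le_trans ?_ h1, h2, h3, fun i => (h4 i).trans (measure_mono ?_)⟩
    · have : (a : ℝ) ≤ b := by exact_mod_cast hab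
      apply one_div_le_one_div_of_le (by positivity)
      linarith
    · intro t ht
      exact monotone_accumulate hab ht
  have hUn : ⋃ n, S n = Q := by
    apply Subset.antisymm (iUnion_subset fun n x hx => hx.1)
    intro x hx
    obtain ⟨r, hr, u, hu, hsq⟩ := hK x hx.1 hx.2
    obtain ⟨θ, h1, h2, k, hk⟩ := first_quadrant hu
    have hside : ∀ i : Fin 4, ∃ n, 1 ≤ volume {t : ℝ | side x r θ i t ∈ accumulate L n} := by
      intro i
      have hm : Monotone fun n => {t : ℝ | side x r θ i t ∈ accumulate L n} :=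
        fun a b hab t ht => monotone_accumulate hab ht
      have hc : Icc (-1 : ℝ) 1 ⊆ ⋃ n, {t : ℝ | side x r θ i t ∈ accumulate L n} := by
        intro t ht
        have h3 := hKL (hsq (side_mem (x := x) (r := r) hk i (abs_le.2 ht)))
        rw [← iUnion_accumulate] at h3
        obtain ⟨n, hn⟩ := mem_iUnion.1 h3
        exact mem_iUnion.2 ⟨n, hn⟩
      have h4 := measure_mono (μ := volume) hc
      rw [Real.volume_Icc, hm.measure_iUnion] at h4
      have h5 : (1 : ENNReal) < ⨆ n, volume {t : ℝ | side x r θ i t ∈ accumulate L n} := by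
        refine lt_of_lt_of_le ?_ h4
        rw [← ENNReal.ofReal_one]
        apply (ENNReal.ofReal_lt_ofReal_iff (by norm_num)).2
        norm_num
      obtain ⟨n, hn⟩ := lt_iSup_iff.1 h5
      exact ⟨n, hn.le⟩
    choose n hn using hside
    obtain ⟨n0, hn0⟩ := exists_nat_one_div_lt hr
    set M := (n 0 + n 1 + n 2 + n 3) + n0 with hM
    rw [mem_iUnion]
    refine ⟨M, hx, r, θ, ?_, h1, h2, fun i => (hn i).trans (measure_mono ?_)⟩
    · refine le_trans ?_ hn0.le
      apply one_div_le_one_div_of_le (by positivity)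
      have : (n0 : ℝ) ≤ M := by
        have : n0 ≤ M := by omega
        exact_mod_cast this
      linarith
    · intro t ht
      have hi : n i ≤ M := by
        fin_cases i <;> simp [hM] <;> omega
      exact monotone_accumulate hi ht
  have hvol : (⨆ n, volume (S n)) = 1 := by
    rw [← hmono.measure_iUnion, hUn, volume_Q]
  have hlt : ENNReal.ofReal (Real.pi / 4) < ⨆ n, volume (S n) := by
    rw [hvol, ← ENNReal.ofReal_one]
    apply (ENNReal.ofReal_lt_ofReal_iff (by norm_num)).2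
    have := Real.pi_lt_four
    linarith
  obtain ⟨n, hn⟩ := lt_iSup_iff.1 hlt
  refine ⟨n, ?_⟩
  have hbd : Bornology.IsBounded (accumulate L n) := by
    rw [accumulate_def]
    exact (Bornology.isBounded_biUnion (finite_Iic n)).2 fun i _ => hL i
  obtain ⟨R, hR⟩ := hbd.exists_norm_le
  obtain ⟨c, hc, hcell⟩ := cells_lower (K := accumulate L n) (R := max R 0)
    (ρ := 1 / ((n : ℝ) + 1)) (le_max_right _ _) (fun y hy => (hR y hy).trans (le_max_left _ _))
    (by positivity) (S := S n) (fun x hx => ⟨hx.1.1, hx.1.2, hx.2⟩) hn.le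
  exact lowerBox_of_cells hbd hc hcell

/-- the lower bound `7/4` -/
theorem main {K : Set ℂ} (hK : Admissible K) :
    ((7 / 4 : ℝ) : EReal) ≤ lowerBoxDim K ∧ ((7 / 4 : ℝ) : EReal) ≤ packingDim K := by
  obtain ⟨hKc, hKs⟩ := hK
  constructor
  · obtain ⟨n, hn⟩ := exhaust hKs (fun _ => K) (fun _ => hKc.isBounded)
      (fun y hy => mem_iUnion.2 ⟨0, hy⟩)
    have : accumulate (fun _ : ℕ => K) n = K := by
      ext y
      rw [mem_accumulate]
      exact ⟨fun ⟨_, _, h⟩ => h, fun h => ⟨0, Nat.zero_le _, h⟩⟩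
    rwa [this] at hn
  · apply le_sInf
    rintro d ⟨L, hL, hKL, rfl⟩
    obtain ⟨n, hn⟩ := exhaust hKs L hL hKL
    exact hn.trans (union_box L hL n)

end Pool.Agent.V11202.SQ
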