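import Pool.Agent.V11202.SQ.Comb

/-!
Lattice points in the intersection of two strips.
-/

set_option autoImplicit false

open Finset

namespace Pool.Agent.V11202.SQ

theorem card_two {ι : Type*} [DecidableEq ι] (T : Finset ι) (f g : ι → ℤ)
    (inj : ∀ w ∈ T, ∀ v ∈ T, f w = f v → g w = g v → w = v)
    (h1 : ∀ w ∈ T, ∀ v ∈ T, g w = g v → (f w : ℝ) - f v ≤ 8) {L : ℝ} (hL : 0 ≤ L)
    (h2 : ∀ w ∈ T, ∀ v ∈ T, (g w : ℝ) - g v ≤ L) : (T.card : ℝ) ≤ 9 * (L + 1) := by
  have e1 : T.card = ∑ b ∈ T.image g, (T.filter (fun z => g z = b)).card :=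
    card_eq_sum_card_image g T
  have e2 : ∀ b ∈ T.image g, ((T.filter (fun z => g z = b)).card : ℝ) ≤ 9 := by
    intro b _
    have e3 : (T.filter (fun z => g z = b)).card = ((T.filter (fun z => g z = b)).image f).card := by
      rw [card_image_of_injOn]
      intro w hw v hv hwv
      simp only [coe_filter, Set.mem_ofPred_eq] at hw hv
      exact inj w hw.1 v hv.1 hwv (by rw [hw.2, hv.2])
    rw [e3]
    have e4 := card_le_of_diff ((T.filter (fun z => g z = b)).image f) (L := 8) (by norm_num) (by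
      intro a ha a' ha'
      obtain ⟨w, hw, rfl⟩ := mem_image.1 ha
      obtain ⟨v, hv, rfl⟩ := mem_image.1 ha'
      rw [mem_filter] at hw hv
      exact h1 w hw.1 v hv.1 (by rw [hw.2, hv.2]))
    linarith
  have e5 : ((T.image g).card : ℝ) ≤ L + 1 := by
    apply card_le_of_diff _ hL
    intro a ha a' ha'
    obtain ⟨w, hw, rfl⟩ := mem_image.1 ha
    obtain ⟨v, hv, rfl⟩ := mem_image.1 ha'
    exact h2 w hw v hv
  have e6 : (T.card : ℝ) ≤ ((T.image g).card : ℝ) * 9 := by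
    rw [e1]
    push_cast
    refine (sum_le_sum e2).trans ?_
    rw [sum_const, nsmul_eq_mul]
  linarith

theorem strip_card (T : Finset (ℤ × ℤ)) {u1 u2 : ℝ} (hu : u1 ^ 2 + u2 ^ 2 = 1)
    (h1 : ∀ w ∈ T, ∀ v ∈ T, |((w.1 : ℝ) - v.1) * u1 + ((w.2 : ℝ) - v.2) * u2| ≤ 4)
    {L : ℝ} (hL : 0 ≤ L)
    (h2 : ∀ w ∈ T, ∀ v ∈ T, |(w.1 : ℝ) - v.1| ≤ L ∧ |(w.2 : ℝ) - v.2| ≤ L) :
    (T.card : ℝ) ≤ 9 * (L + 1) := by
  by_cases hc : 1 / 2 ≤ |u1|
  · apply card_two T (fun w => w.1) (fun w => w.2) _ _ hL _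
    · intro w _ v _ e1 e2
      exact Prod.ext e1 e2
    · intro w hw v hv e
      have h3 := h1 w hw v hv
      rw [e, sub_self, zero_mul, add_zero, abs_mul] at h3
      have h4 := le_abs_self ((w.1 : ℝ) - v.1)
      have h5 := abs_nonneg ((w.1 : ℝ) - v.1)
      nlinarith
    · intro w hw v hv
      exact (le_abs_self _).trans (h2 w hw v hv).2
  · push Not at hc
    have hc2 : 1 / 2 ≤ |u2| := by
      have h3 := sq_abs u1
      have h4 := sq_abs u2
      have h5 := abs_nonneg u1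
      have h6 := abs_nonneg u2
      by_contra h7
      push Not at h7
      nlinarith
    apply card_two T (fun w => w.2) (fun w => w.1) _ _ hL _
    · intro w _ v _ e1 e2
      exact Prod.ext e2 e1
    · intro w hw v hv e
      have h3 := h1 w hw v hv
      rw [e, sub_self, zero_mul, zero_add, abs_mul] at h3
      have h4 := le_abs_self ((w.2 : ℝ) - v.2)
      have h5 := abs_nonneg ((w.2 : ℝ) - v.2)
      nlinarith
    · intro w hw v hv
      exact (le_abs_self _).trans (h2 w hw v hv).1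

/-- the strip with normal angle `φ` -/
def InStrip (φ P : ℝ) (w : ℤ × ℤ) : Prop :=
  |(w.1 : ℝ) * Real.cos φ + (w.2 : ℝ) * Real.sin φ - P| ≤ 2

theorem strip_diff {φ P : ℝ} {w v : ℤ × ℤ} (hw : InStrip φ P w) (hv : InStrip φ P v) :
    |((w.1 : ℝ) - v.1) * Real.cos φ + ((w.2 : ℝ) - v.2) * Real.sin φ| ≤ 4 := by
  unfold InStrip at hw hv
  rw [abs_le] at hw hv ⊢
  constructor <;> linarith [hw.1, hw.2, hv.1, hv.2]

theorem overlap_all (T : Finset (ℤ × ℤ)) {φ P L : ℝ} (hL : 0 ≤ L)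
    (h : ∀ w ∈ T, InStrip φ P w) (hb : ∀ w ∈ T, |(w.1 : ℝ)| ≤ L ∧ |(w.2 : ℝ)| ≤ L) :
    (T.card : ℝ) ≤ 9 * (2 * L + 1) := by
  apply strip_card T (Real.cos_sq_add_sin_sq φ) (fun w hw v hv => strip_diff (h w hw) (h v hv))
    (by positivity)
  intro w hw v hv
  have h1 := hb w hw
  have h2 := hb v hv
  rw [abs_le, abs_le] at h1 h2
  rw [abs_le, abs_le]
  refine ⟨⟨?_, ?_⟩, ⟨?_, ?_⟩⟩ <;> linarith [h1.1.1, h1.1.2, h1.2.1, h1.2.2, h2.1.1, h2.1.2, h2.2.1, h2.2.2]

theorem overlap_angle (T : Finset (ℤ × ℤ)) {φ φ' P P' : ℝ} (h0 : φ' ≠ φ)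
    (hφ : |φ' - φ| ≤ Real.pi / 2)
    (h : ∀ w ∈ T, InStrip φ P w) (h' : ∀ w ∈ T, InStrip φ' P' w) :
    (T.card : ℝ) ≤ 9 * (13 / |φ' - φ| + 5) := by
  have hβ : 0 < |φ' - φ| := abs_pos.2 (sub_ne_zero.2 h0)
  have hmain : ∀ w ∈ T, ∀ v ∈ T, |(w.1 : ℝ) - v.1| ≤ 13 / |φ' - φ| + 4 ∧
      |(w.2 : ℝ) - v.2| ≤ 13 / |φ' - φ| + 4 := by
    intro w hw v hv
    set β := φ' - φ with hβd
    have ha := strip_diff (h w hw) (h v hv)
    have ha' := strip_diff (h' w hw) (h' v hv)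
    set D1 : ℝ := (w.1 : ℝ) - v.1
    set D2 : ℝ := (w.2 : ℝ) - v.2
    set a : ℝ := D1 * Real.cos φ + D2 * Real.sin φ with had
    set b : ℝ := -D1 * Real.sin φ + D2 * Real.cos φ with hbd
    have hφ' : φ' = φ + β := by rw [hβd]; ring
    have e1 : D1 * Real.cos φ' + D2 * Real.sin φ' = Real.cos β * a + Real.sin β * b := by
      rw [hφ', Real.cos_add, Real.sin_add, had, hbd]; ring
    rw [e1] at ha'
    have hs := Real.mul_abs_le_abs_sin hφ
    have hcb : |Real.cos β * a| ≤ 4 := by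
      rw [abs_mul]
      have := Real.abs_cos_le_one β
      have h1 := abs_nonneg a
      have h2 := abs_nonneg (Real.cos β)
      nlinarith
    have hsb : |Real.sin β| * |b| ≤ 8 := by
      rw [← abs_mul]
      rw [abs_le] at hcb ha' ⊢
      constructor <;> linarith [hcb.1, hcb.2, ha'.1, ha'.2]
    have hb : |b| ≤ 13 / |β| := by
      rw [le_div_iff₀ hβ]
      have h2 := abs_nonneg b
      have h3 : 2 / Real.pi * |β| * |b| ≤ 8 := (mul_le_mul_of_nonneg_right hs h2).trans hsb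
      have hpi := Real.pi_pos
      have hpi2 := Real.pi_lt_d2
      have h4 : |β| * |b| ≤ 4 * Real.pi := by
        have h5 : 2 / Real.pi * |β| * |b| = 2 * (|β| * |b|) / Real.pi := by ring
        rw [h5, div_le_iff₀ hpi] at h3
        linarith
      nlinarith
    have e2 : D1 = a * Real.cos φ - b * Real.sin φ := by
      rw [had, hbd]
      have := Real.cos_sq_add_sin_sq φ
      linear_combination (-D1) * this
    have e3 : D2 = a * Real.sin φ + b * Real.cos φ := by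
      rw [had, hbd]
      have := Real.cos_sq_add_sin_sq φ
      linear_combination (-D2) * this
    have hc1 := Real.abs_cos_le_one φ
    have hs1 := Real.abs_sin_le_one φ
    have hmul : ∀ x y : ℝ, |y| ≤ 1 → |x * y| ≤ |x| := by
      intro x y hy
      rw [abs_mul]
      have := abs_nonneg x
      nlinarith
    constructor
    · rw [e2]
      refine (abs_sub _ _).trans ?_
      have := hmul a _ hc1
      have := hmul b _ hs1
      linarith
    · rw [e3]
      refine (abs_add_le _ _).trans ?_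
      have := hmul a _ hs1
      have := hmul b _ hc1
      linarith
  have := strip_card T (Real.cos_sq_add_sin_sq φ)
    (fun w hw v hv => strip_diff (h w hw) (h v hv)) (L := 13 / |φ' - φ| + 4) (by positivity) hmain
  linarith

theorem overlap_pos {φ φ' P P' L : ℝ} {w : ℤ × ℤ} (h : InStrip φ P w) (h' : InStrip φ' P' w)
    (hb : |(w.1 : ℝ)| ≤ L ∧ |(w.2 : ℝ)| ≤ L) : |P - P'| ≤ 2 * L * |φ - φ'| + 4 := by
  unfold InStrip at h h'
  have h1 : |(w.1 : ℝ) * (Real.cos φ - Real.cos φ')| ≤ L * |φ - φ'| := by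
    rw [abs_mul]
    exact mul_le_mul hb.1 (Real.abs_cos_sub_cos_le _ _) (abs_nonneg _)
      ((abs_nonneg _).trans hb.1)
  have h2 : |(w.2 : ℝ) * (Real.sin φ - Real.sin φ')| ≤ L * |φ - φ'| := by
    rw [abs_mul]
    exact mul_le_mul hb.2 (Real.abs_sin_sub_sin_le _ _) (abs_nonneg _)
      ((abs_nonneg _).trans hb.1)
  rw [abs_le] at h h' h1 h2 ⊢
  constructor <;> linarith [h.1, h.2, h'.1, h'.2, h1.1, h1.2, h2.1, h2.2]

end Pool.Agent.V11202.SQ
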