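import Pool.Agent.V11202.SQ.Geo

/-!
The `L²` argument (Cordoba): strips with few neighbours at all scales cover many cells.
-/

set_option autoImplicit false

open Finset

namespace Pool.Agent.V11202.SQ

/-- dyadic cell of level `k` of the point `(θ z, p z)` -/
noncomputable def cell {ι : Type*} (k : ℕ) (θ p : ι → ℝ) (z : ι) : ℤ × ℤ :=
  (⌊(2 : ℝ) ^ k * θ z⌋, ⌊(2 : ℝ) ^ k * p z⌋)

/-- neighbouring cells -/
def near (H : ℕ) (q q' : ℤ × ℤ) : Prop := |q.1 - q'.1| ≤ H ∧ |q.2 - q'.2| ≤ H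

instance (H : ℕ) (q q' : ℤ × ℤ) : Decidable (near H q q') := by unfold near; infer_instance

theorem floor_near {a b : ℝ} {H : ℕ} (h : |a - b| ≤ H) : |⌊a⌋ - ⌊b⌋| ≤ (H : ℤ) := by
  rw [abs_le] at h ⊢
  constructor
  · have h1 : b ≤ a + H := by linarith [h.1]
    have h2 : ⌊b⌋ ≤ ⌊a + (H : ℝ)⌋ := Int.floor_le_floor h1
    have h3 : ⌊a + (H : ℝ)⌋ = ⌊a⌋ + (H : ℤ) := Int.floor_add_natCast a H
    omega
  · have h1 : a ≤ b + H := by linarith [h.2]
    have h2 : ⌊a⌋ ≤ ⌊b + (H : ℝ)⌋ := Int.floor_le_floor h1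
    have h3 : ⌊b + (H : ℝ)⌋ = ⌊b⌋ + (H : ℤ) := Int.floor_add_natCast b H
    omega

theorem pair_bound {ι : Type*} (m : ℕ) (θ p : ι → ℝ) (s0 : ℝ) (E : ι → Finset (ℤ × ℤ))
    {R : ℝ} (H : ℕ) (hR : 1 ≤ R) (hH : 2 * R + 4 ≤ H) (z z' : ι)
    (hst : ∀ w ∈ E z, InStrip (θ z + s0) (2 ^ m * p z) w ∧ |(w.1 : ℝ)| ≤ R * 2 ^ m ∧
      |(w.2 : ℝ)| ≤ R * 2 ^ m)
    (hst' : ∀ w ∈ E z', InStrip (θ z' + s0) (2 ^ m * p z') w ∧ |(w.1 : ℝ)| ≤ R * 2 ^ m ∧
      |(w.2 : ℝ)| ≤ R * 2 ^ m)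
    (hθ : |θ z - θ z'| ≤ Real.pi / 2) :
    ((E z ∩ E z').card : ℝ) ≤ 279 * R + 279 * R * ∑ k ∈ range (m + 1),
      2 ^ k * (if near H (cell k θ p z) (cell k θ p z') then (1 : ℝ) else 0) := by
  classical
  have hnn : 0 ≤ ∑ k ∈ range (m + 1),
      2 ^ k * (if near H (cell k θ p z) (cell k θ p z') then (1 : ℝ) else 0) := by
    apply sum_nonneg
    intro k _
    split_ifs <;> positivity
  rcases (E z ∩ E z').eq_empty_or_nonempty with h0 | ⟨w0, hw0⟩
  · rw [h0]; simp; positivity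
  have hw1 := hst w0 (mem_inter.1 hw0).1
  have hw2 := hst' w0 (mem_inter.1 hw0).2
  have hT : ∀ w ∈ E z ∩ E z', InStrip (θ z + s0) (2 ^ m * p z) w :=
    fun w hw => (hst w (mem_inter.1 hw).1).1
  have hT' : ∀ w ∈ E z ∩ E z', InStrip (θ z' + s0) (2 ^ m * p z') w :=
    fun w hw => (hst' w (mem_inter.1 hw).2).1
  have hpos := overlap_pos hw1.1 hw2.1 hw1.2
  have e1 : θ z + s0 - (θ z' + s0) = θ z - θ z' := by ring
  rw [e1] at hpos
  have h2m : (1 : ℝ) ≤ 2 ^ m := one_le_pow₀ (by norm_num)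
  set α := |θ z - θ z'| with hα
  have hα0 : 0 ≤ α := abs_nonneg _
  -- one scale suffices
  have hone : ∀ k ≤ m, 2 ^ k * α ≤ 1 →
      near H (cell k θ p z) (cell k θ p z') := by
    intro k hk hkα
    have h2k : (0 : ℝ) < 2 ^ k := by positivity
    constructor
    · refine floor_near ?_
      rw [← mul_sub, abs_mul, abs_of_pos h2k, ← hα]
      linarith
    · refine floor_near ?_
      rw [← mul_sub, abs_mul, abs_of_pos h2k]
      have h3 : |2 ^ m * p z - 2 ^ m * p z'| = 2 ^ m * |p z - p z'| := by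
        rw [← mul_sub, abs_mul, abs_of_pos (by positivity : (0 : ℝ) < 2 ^ m)]
      rw [h3] at hpos
      have h4 : (2 : ℝ) ^ m = 2 ^ k * 2 ^ (m - k) := by
        rw [← pow_add, Nat.add_sub_cancel' hk]
      have h5 : (1 : ℝ) ≤ 2 ^ (m - k) := one_le_pow₀ (by norm_num)
      have h6 : 2 ^ (m - k) * (2 ^ k * |p z - p z'|) ≤
          2 ^ (m - k) * (2 * R * (2 ^ k * α)) + 4 := by
        have e3 : (2 : ℝ) ^ m * |p z - p z'| = 2 ^ (m - k) * (2 ^ k * |p z - p z'|) := by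
          rw [h4]; ring
        have e4 : 2 * (R * (2 : ℝ) ^ m) * α = 2 ^ (m - k) * (2 * R * (2 ^ k * α)) := by
          rw [h4]; ring
        rw [← e3, ← e4]
        exact hpos
      have h7 : 2 ^ (m - k) * (2 * R * (2 ^ k * α)) ≤ 2 ^ (m - k) * (2 * R) := by
        apply mul_le_mul_of_nonneg_left _ (by positivity)
        nlinarith
      have h8 : 2 ^ (m - k) * (2 ^ k * |p z - p z'|) ≤ 2 ^ (m - k) * (2 * R + 4) := by
        nlinarith
      have h9 := le_of_mul_le_mul_left h8 (by positivity)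
      linarith
  have hterm : ∀ k ≤ m, near H (cell k θ p z) (cell k θ p z') →
      (2 : ℝ) ^ k ≤ ∑ k ∈ range (m + 1),
      2 ^ k * (if near H (cell k θ p z) (cell k θ p z') then (1 : ℝ) else 0) := by
    intro k hk hn
    have := single_le_sum (f := fun k => (2 : ℝ) ^ k *
      (if near H (cell k θ p z) (cell k θ p z') then (1 : ℝ) else 0)) (s := range (m + 1))
      (fun k _ => by positivity) (mem_range.2 (Nat.lt_succ_of_le hk))
    simp only [hn, if_true, mul_one] at this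
    exact this
  by_cases hα1 : 1 < α
  · have h1 : θ z' + s0 ≠ θ z + s0 := by
      intro h
      have : θ z - θ z' = 0 := by linarith
      rw [hα, this, abs_zero] at hα1
      linarith
    have e2 : |θ z' + s0 - (θ z + s0)| = α := by
      rw [hα, abs_sub_comm (θ z)]; congr 1; ring
    have h2 := overlap_angle (E z ∩ E z') h1 (by rw [e2]; exact hθ) hT hT'
    rw [e2] at h2
    have h3 : 13 / α ≤ 13 := by
      rw [div_le_iff₀ (by linarith)]; nlinarith
    nlinarith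
  push Not at hα1
  by_cases hm : 2 ^ m * α ≤ 1
  · have h1 := overlap_all (E z ∩ E z') (L := R * 2 ^ m) (by positivity) hT
      (fun w hw => (hst w (mem_inter.1 hw).1).2)
    have h2 := hterm m le_rfl (hone m le_rfl hm)
    have h3 : 9 * (2 * (R * 2 ^ m) + 1) ≤ 279 * R * (2 : ℝ) ^ m := by nlinarith
    have h4 := mul_le_mul_of_nonneg_left h2 (show (0 : ℝ) ≤ 279 * R by positivity)
    nlinarith
  · push Not at hm
    have hαp : 0 < α := by
      rcases eq_or_lt_of_le hα0 with h | h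
      · rw [← h, mul_zero] at hm; linarith
      · exact h
    -- the largest scale
    have hex : ∃ k, k < m ∧ 2 ^ k * α ≤ 1 ∧ 1 < 2 ^ (k + 1) * α := by
      have hP : ∃ n : ℕ, 1 < 2 ^ n * α := ⟨m, hm⟩
      classical
      set n := Nat.find hP with hn
      have hn1 : 1 < 2 ^ n * α := Nat.find_spec hP
      have hn2 : n ≤ m := Nat.find_min' hP hm
      have hn0 : n ≠ 0 := by
        intro h
        rw [h, pow_zero, one_mul] at hn1
        linarith
      refine ⟨n - 1, by omega, ?_, ?_⟩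
      · have := Nat.find_min hP (m := n - 1) (by omega)
        push Not at this
        exact this
      · rw [Nat.sub_add_cancel (by omega)]
        exact hn1
    obtain ⟨k, hkm, hk1, hk2⟩ := hex
    have h1 : θ z' + s0 ≠ θ z + s0 := by
      intro h
      have : θ z - θ z' = 0 := by linarith
      rw [hα, this, abs_zero] at hαp
      linarith
    have e2 : |θ z' + s0 - (θ z + s0)| = α := by
      rw [hα, abs_sub_comm (θ z)]; congr 1; ring
    have h2 := overlap_angle (E z ∩ E z') h1 (by rw [e2]; exact hθ) hT hT'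
    rw [e2] at h2
    have h3 : 13 / α ≤ 26 * 2 ^ k := by
      rw [div_le_iff₀ hαp, pow_succ] at *
      nlinarith
    have h4 := hterm k hkm.le (hone k hkm.le hk1)
    have h5 := mul_le_mul_of_nonneg_left h4 (show (0 : ℝ) ≤ 279 * R by positivity)
    have h6 : (1 : ℝ) ≤ 2 ^ k := one_le_pow₀ (by norm_num)
    have h7 : 279 * (2 : ℝ) ^ k ≤ 279 * R * 2 ^ k := by nlinarith
    nlinarith

theorem l2 {ι : Type*} [DecidableEq ι] (m : ℕ) (Good : Finset ι) (θ p : ι → ℝ) (s0 : ℝ)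
    (E : ι → Finset (ℤ × ℤ)) (G : Finset (ℤ × ℤ)) {κ R Y : ℝ} (H : ℕ) (hκ : 0 < κ)
    (hR : 1 ≤ R) (hH : 2 * R + 4 ≤ H)
    (hEG : ∀ z ∈ Good, E z ⊆ G) (hEc : ∀ z ∈ Good, κ * 2 ^ m ≤ (E z).card)
    (hst : ∀ z ∈ Good, ∀ w ∈ E z, InStrip (θ z + s0) (2 ^ m * p z) w ∧
      |(w.1 : ℝ)| ≤ R * 2 ^ m ∧ |(w.2 : ℝ)| ≤ R * 2 ^ m)
    (hθ : ∀ z ∈ Good, ∀ z' ∈ Good, |θ z - θ z'| ≤ Real.pi / 2)
    (hY : (Good.card : ℝ) ≤ 4 * Y)
    (hgood : ∀ k ≤ m, ∀ q : ℤ × ℤ,
      2 ^ k * ((Good.filter (fun z => cell k θ p z = q)).card : ℝ) ≤ Y) :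
    κ ^ 2 * 4 ^ m * Good.card ≤
      G.card * (279 * R * (4 + (2 * H + 1) ^ 2) * (m + 1) * Y) := by
  classical
  have hY0 : 0 ≤ Y := by
    have : (0 : ℝ) ≤ Good.card := by positivity
    linarith
  rcases Nat.eq_zero_or_pos Good.card with hg0 | hg
  · rw [hg0]; simp; positivity
  have hgR : (0 : ℝ) < Good.card := by exact_mod_cast hg
  -- double counting
  have hsum1 : ∑ z ∈ Good, ((E z).card : ℝ) =
      ∑ w ∈ G, ∑ z ∈ Good, (if w ∈ E z then (1 : ℝ) else 0) := by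
    rw [sum_comm]
    apply sum_congr rfl
    intro z hz
    rw [← sum_filter, sum_const, nsmul_eq_mul, mul_one]
    congr 2
    ext w
    rw [mem_filter]
    exact ⟨fun h => ⟨hEG z hz h, h⟩, fun h => h.2⟩
  have hsum2 : ∑ w ∈ G, (∑ z ∈ Good, (if w ∈ E z then (1 : ℝ) else 0)) ^ 2 =
      ∑ z ∈ Good, ∑ z' ∈ Good, ((E z ∩ E z').card : ℝ) := by
    have h1 : ∀ w ∈ G, (∑ z ∈ Good, (if w ∈ E z then (1 : ℝ) else 0)) ^ 2 =
        ∑ z ∈ Good, ∑ z' ∈ Good, (if w ∈ E z ∩ E z' then (1 : ℝ) else 0) := by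
      intro w _
      rw [sq, sum_mul_sum]
      apply sum_congr rfl; intro z _
      apply sum_congr rfl; intro z' _
      by_cases h1 : w ∈ E z <;> by_cases h2 : w ∈ E z' <;> simp [h1, h2]
    rw [sum_congr rfl h1, sum_comm]
    apply sum_congr rfl; intro z hz
    rw [sum_comm]
    apply sum_congr rfl; intro z' hz'
    rw [← sum_filter, sum_const, nsmul_eq_mul, mul_one]
    congr 2
    ext w
    rw [mem_filter]
    exact ⟨fun h => h.2, fun h => ⟨hEG z hz (mem_inter.1 h).1, h⟩⟩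
  have hcs : (∑ z ∈ Good, ((E z).card : ℝ)) ^ 2 ≤
      G.card * ∑ z ∈ Good, ∑ z' ∈ Good, ((E z ∩ E z').card : ℝ) := by
    rw [hsum1, ← hsum2]
    exact sq_sum_le_card_mul_sum_sq
  have hlow : κ * 2 ^ m * Good.card ≤ ∑ z ∈ Good, ((E z).card : ℝ) := by
    rw [mul_comm, ← nsmul_eq_mul]
    exact card_nsmul_le_sum _ _ _ hEc
  -- neighbours
  have hnear : ∀ z ∈ Good, ∀ k ≤ m,
      2 ^ k * ((Good.filter (fun z' => near H (cell k θ p z) (cell k θ p z'))).card : ℝ) ≤
        (2 * H + 1) ^ 2 * Y := by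
    intro z _ k hk
    set B : Finset (ℤ × ℤ) := (Finset.Icc ((cell k θ p z).1 - H) ((cell k θ p z).1 + H)) ×ˢ
      (Finset.Icc ((cell k θ p z).2 - H) ((cell k θ p z).2 + H)) with hB
    have hBc : (B.card : ℝ) = (2 * H + 1) ^ 2 := by
      rw [hB, card_product, Int.card_Icc, Int.card_Icc]
      have e1 : ((cell k θ p z).1 + H + 1 - ((cell k θ p z).1 - H)).toNat = 2 * H + 1 := by omega
      have e2 : ((cell k θ p z).2 + H + 1 - ((cell k θ p z).2 - H)).toNat = 2 * H + 1 := by omega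
      rw [e1, e2]
      push_cast
      ring
    have h1 : (Good.filter (fun z' => near H (cell k θ p z) (cell k θ p z'))).card =
        ∑ q ∈ B, ((Good.filter (fun z' => near H (cell k θ p z) (cell k θ p z'))).filter
          (fun z' => cell k θ p z' = q)).card := by
      apply card_eq_sum_card_fiberwise
      intro z' hz'
      simp only [coe_filter, Set.mem_ofPred_eq] at hz'
      obtain ⟨_, h2, h3⟩ := hz'
      rw [abs_le] at h2 h3
      simp only [hB, coe_product, Set.mem_prod, coe_Icc, Set.mem_Icc]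
      constructor <;> constructor <;> omega
    rw [h1]
    push_cast
    rw [mul_sum, ← hBc, ← nsmul_eq_mul]
    apply sum_le_card_nsmul
    intro q _
    refine le_trans ?_ (hgood k hk q)
    apply mul_le_mul_of_nonneg_left _ (by positivity)
    norm_cast
    apply card_le_card
    intro z' hz'
    rw [mem_filter] at hz' ⊢
    exact ⟨(mem_filter.1 hz'.1).1, hz'.2⟩
  have hrow : ∀ z ∈ Good, ∑ z' ∈ Good, ((E z ∩ E z').card : ℝ) ≤
      279 * R * (4 + (2 * H + 1) ^ 2) * (m + 1) * Y := by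
    intro z hz
    have h1 : ∑ z' ∈ Good, ((E z ∩ E z').card : ℝ) ≤
        ∑ z' ∈ Good, (279 * R + 279 * R * ∑ k ∈ range (m + 1),
          2 ^ k * (if near H (cell k θ p z) (cell k θ p z') then (1 : ℝ) else 0)) :=
      sum_le_sum fun z' hz' => pair_bound m θ p s0 E H hR hH z z' (hst z hz) (hst z' hz')
        (hθ z hz z' hz')
    refine h1.trans ?_
    rw [sum_add_distrib, sum_const, nsmul_eq_mul, ← mul_sum, sum_comm]
    have h2 : ∑ k ∈ range (m + 1), ∑ z' ∈ Good,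
        2 ^ k * (if near H (cell k θ p z) (cell k θ p z') then (1 : ℝ) else 0) ≤
        (m + 1) * ((2 * H + 1) ^ 2 * Y) := by
      have h3 : ∀ k ∈ range (m + 1), ∑ z' ∈ Good,
          2 ^ k * (if near H (cell k θ p z) (cell k θ p z') then (1 : ℝ) else 0) ≤
          (2 * H + 1) ^ 2 * Y := by
        intro k hk
        rw [← mul_sum, ← sum_filter, sum_const, nsmul_eq_mul, mul_one]
        exact hnear z hz k (by rw [mem_range] at hk; omega)
      refine (sum_le_card_nsmul _ _ _ h3).trans (le_of_eq ?_)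
      rw [card_range, nsmul_eq_mul]
      push_cast
      ring
    have hm1 : (1 : ℝ) ≤ m + 1 := by
      have : (0 : ℝ) ≤ m := by positivity
      linarith
    have h4 : (Good.card : ℝ) * (279 * R) ≤ 279 * R * (4 * Y) * (m + 1) := by
      have h5 : (Good.card : ℝ) * (279 * R) ≤ (4 * Y) * (279 * R) :=
        mul_le_mul_of_nonneg_right hY (by positivity)
      have h6 : 0 ≤ 279 * R * (4 * Y) := by positivity
      nlinarith
    have h7 := mul_le_mul_of_nonneg_left h2 (show (0 : ℝ) ≤ 279 * R by positivity)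
    calc _ ≤ 279 * R * (4 * Y) * (m + 1) + 279 * R * ((m + 1) * ((2 * H + 1) ^ 2 * Y)) :=
          add_le_add h4 h7
      _ = _ := by ring
  have htot : (κ * 2 ^ m * Good.card) ^ 2 ≤
      G.card * (Good.card * (279 * R * (4 + (2 * H + 1) ^ 2) * (m + 1) * Y)) := by
    refine (pow_le_pow_left₀ (by positivity) hlow 2).trans (hcs.trans ?_)
    apply mul_le_mul_of_nonneg_left _ (by positivity)
    rw [← nsmul_eq_mul]
    exact sum_le_card_nsmul _ _ _ hrow
  have e4 : (4 : ℝ) ^ m = 2 ^ m * 2 ^ m := by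
    rw [← mul_pow]; norm_num
  have hfin : (Good.card : ℝ) * (κ ^ 2 * 4 ^ m * Good.card) ≤
      Good.card * (G.card * (279 * R * (4 + (2 * H + 1) ^ 2) * (m + 1) * Y)) := by
    calc (Good.card : ℝ) * (κ ^ 2 * 4 ^ m * Good.card) = (κ * 2 ^ m * Good.card) ^ 2 := by
          rw [e4]; ring
      _ ≤ _ := htot
      _ = _ := by ring
  exact le_of_mul_le_mul_left hfin hgR

end Pool.Agent.V11202.SQ
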