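import Pool.Agent.V11202.SQ.Core

/-!
From square boundaries in the plane to the discrete core.
-/

set_option autoImplicit false

open MeasureTheory Set

namespace Pool.Agent.V11202.SQ

/-- dyadic cell of level `m` of a point of the plane -/
noncomputable def pc (m : ℕ) (y : ℂ) : ℤ × ℤ := (⌊(2 : ℝ) ^ m * y.re⌋, ⌊(2 : ℝ) ^ m * y.im⌋)

/-- the side number `i` -/
noncomputable def side (x : ℂ) (r θ : ℝ) (i : Fin 4) (t : ℝ) : ℂ :=
  x + r * Complex.exp (((θ + (i : ℕ) * (Real.pi / 2) : ℝ) : ℂ) * Complex.I) * (1 + t * Complex.I)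

theorem side_re (x : ℂ) (r θ : ℝ) (i : Fin 4) (t : ℝ) :
    (side x r θ i t).re = x.re + r * (Real.cos (θ + (i : ℕ) * (Real.pi / 2)) -
      t * Real.sin (θ + (i : ℕ) * (Real.pi / 2))) := by
  unfold side
  set φ : ℝ := θ + (i : ℕ) * (Real.pi / 2)
  rw [Complex.exp_mul_I]
  simp [Complex.cos_ofReal_re, Complex.sin_ofReal_re]
  ring

theorem side_im (x : ℂ) (r θ : ℝ) (i : Fin 4) (t : ℝ) :
    (side x r θ i t).im = x.im + r * (Real.sin (θ + (i : ℕ) * (Real.pi / 2)) +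
      t * Real.cos (θ + (i : ℕ) * (Real.pi / 2))) := by
  unfold side
  set φ : ℝ := θ + (i : ℕ) * (Real.pi / 2)
  rw [Complex.exp_mul_I]
  simp [Complex.cos_ofReal_re, Complex.sin_ofReal_re]
  ring

theorem side_sub (x : ℂ) {r : ℝ} (hr : 0 ≤ r) (θ : ℝ) (i : Fin 4) (t t' : ℝ) :
    ‖side x r θ i t - side x r θ i t'‖ = r * |t - t'| := by
  unfold side
  set φ : ℝ := θ + (i : ℕ) * (Real.pi / 2)
  have h : x + r * Complex.exp ((φ : ℂ) * Complex.I) * (1 + t * Complex.I) -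
      (x + r * Complex.exp ((φ : ℂ) * Complex.I) * (1 + t' * Complex.I)) =
      r * Complex.exp ((φ : ℂ) * Complex.I) * (((t - t' : ℝ) : ℂ) * Complex.I) := by
    push_cast; ring
  rw [h, norm_mul, norm_mul, norm_mul, Complex.norm_exp_ofReal_mul_I, Complex.norm_I,
    Complex.norm_real, Complex.norm_real, Real.norm_of_nonneg hr, Real.norm_eq_abs]
  ring

theorem habs (m : ℕ) (v : ℝ) : |v| * 2 ^ m = |v * 2 ^ m| := by
  rw [abs_mul, abs_of_pos (by positivity : (0 : ℝ) < 2 ^ m)]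

theorem pc_dist {m : ℕ} {y y' : ℂ} (h : pc m y = pc m y') : ‖y - y'‖ ≤ 2 / 2 ^ m := by
  have h2 : (0 : ℝ) < 2 ^ m := by positivity
  obtain ⟨h1, h3⟩ := Prod.mk.inj h
  have e1 : |(y - y').re| ≤ 1 / 2 ^ m := by
    rw [le_div_iff₀ h2, Complex.sub_re, habs, abs_le]
    have a1 := Int.floor_le ((2 : ℝ) ^ m * y.re)
    have a2 := Int.lt_floor_add_one ((2 : ℝ) ^ m * y.re)
    have b1 := Int.floor_le ((2 : ℝ) ^ m * y'.re)
    have b2 := Int.lt_floor_add_one ((2 : ℝ) ^ m * y'.re)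
    rw [h1] at a1 a2
    constructor <;> linarith
  have e2 : |(y - y').im| ≤ 1 / 2 ^ m := by
    rw [le_div_iff₀ h2, Complex.sub_im, habs, abs_le]
    have a1 := Int.floor_le ((2 : ℝ) ^ m * y.im)
    have a2 := Int.lt_floor_add_one ((2 : ℝ) ^ m * y.im)
    have b1 := Int.floor_le ((2 : ℝ) ^ m * y'.im)
    have b2 := Int.lt_floor_add_one ((2 : ℝ) ^ m * y'.im)
    rw [h3] at a1 a2
    constructor <;> linarith
  have h4 := Complex.norm_le_abs_re_add_abs_im (y - y')
  have h5 : (2 : ℝ) / 2 ^ m = 1 / 2 ^ m + 1 / 2 ^ m := by ring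
  linarith

/-- the number of cells of a set holding large parts of the sides of many squares -/
theorem cells_lower {K : Set ℂ} {R ρ : ℝ} (hR : 0 ≤ R) (hK : ∀ y ∈ K, ‖y‖ ≤ R) (hρ : 0 < ρ)
    {S : Set ℂ} (hS : ∀ x ∈ S, (0 ≤ x.re ∧ x.re ≤ 1) ∧ (0 ≤ x.im ∧ x.im ≤ 1) ∧
      ∃ r θ : ℝ, ρ ≤ r ∧ 0 ≤ θ ∧ θ ≤ Real.pi / 2 ∧
        ∀ i : Fin 4, 1 ≤ volume {t : ℝ | side x r θ i t ∈ K})
    (hv : ENNReal.ofReal (Real.pi / 4) ≤ volume S) :
    ∃ c : ℝ, 0 < c ∧ ∀ (m : ℕ) (G : Finset (ℤ × ℤ)), (∀ y ∈ K, pc m y ∈ G) →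
      c * 2 ^ (14 * m) ≤ (G.card : ℝ) ^ 8 * (m + 1) ^ 20 := by
  classical
  obtain ⟨c, hc, hcore⟩ := core (κ := ρ / 2) (R := R + 1) (by positivity) (by linarith)
  refine ⟨c, hc, fun m G hG => ?_⟩
  have h2 : (0 : ℝ) < 2 ^ m := by positivity
  have h21 : (1 : ℝ) ≤ 2 ^ m := one_le_pow₀ (by norm_num)
  set X : Finset (ℤ × ℤ) := ((Finset.Icc (0 : ℤ) (2 ^ m)) ×ˢ (Finset.Icc (0 : ℤ) (2 ^ m))).filter
    (fun z => ∃ x ∈ S, pc m x = z) with hX
  have hXex : ∀ z : ℤ × ℤ, ∃ x : ℂ, z ∈ X → x ∈ S ∧ pc m x = z := by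
    intro z
    by_cases hz : z ∈ X
    · obtain ⟨x, hx⟩ := (Finset.mem_filter.1 hz).2
      exact ⟨x, fun _ => hx⟩
    · exact ⟨0, fun h => absurd h hz⟩
  choose xx hxx using hXex
  have hSX : ∀ x ∈ S, pc m x ∈ X := by
    intro x hx
    obtain ⟨⟨a1, a2⟩, ⟨b1, b2⟩, -⟩ := hS x hx
    rw [hX, Finset.mem_filter, Finset.mem_product, Finset.mem_Icc, Finset.mem_Icc]
    refine ⟨⟨⟨Int.floor_nonneg.2 (by positivity), ?_⟩, ⟨Int.floor_nonneg.2 (by positivity), ?_⟩⟩,
      x, hx, rfl⟩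
    · rw [← Int.cast_le (R := ℝ)]
      push_cast
      exact (Int.floor_le _).trans (by nlinarith)
    · rw [← Int.cast_le (R := ℝ)]
      push_cast
      exact (Int.floor_le _).trans (by nlinarith)
  -- data
  have hdat : ∀ z : ℤ × ℤ, ∃ r θ : ℝ, z ∈ X → ρ ≤ r ∧ 0 ≤ θ ∧ θ ≤ Real.pi / 2 ∧
        ∀ i : Fin 4, 1 ≤ volume {t : ℝ | side (xx z) r θ i t ∈ K} := by
    intro z
    by_cases hz : z ∈ X
    · obtain ⟨-, -, r, θ, h⟩ := hS (xx z) (hxx z hz).1
      exact ⟨r, θ, fun _ => h⟩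
    · exact ⟨0, 0, fun h => absurd h hz⟩
  choose r θ hrθ using hdat
  set E : Fin 4 → ℤ × ℤ → Finset (ℤ × ℤ) := fun i z => G.filter
    (fun w => ∃ t : ℝ, side (xx z) (r z) (θ z) i t ∈ K ∧ pc m (side (xx z) (r z) (θ z) i t) = w)
    with hE
  apply hcore m X G (fun z => (xx z).re) (fun z => (xx z).im) θ r E
  · intro z hz
    obtain ⟨h1, h3⟩ := hxx z hz
    obtain ⟨a, b, -⟩ := hS _ h1
    refine ⟨?_, ?_, a, b⟩
    · exact congrArg Prod.fst h3
    · exact congrArg Prod.snd h3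
  · -- many cells
    have hcov : S ⊆ ⋃ z ∈ X, {y : ℂ | pc m y = z} := by
      intro x hx
      rw [mem_iUnion₂]
      exact ⟨pc m x, hSX x hx, rfl⟩
    have hcell : ∀ z ∈ X, volume {y : ℂ | pc m y = z} ≤
        ENNReal.ofReal (Real.pi / 4 ^ m) := by
      intro z _
      set cz : ℂ := ⟨((z.1 : ℝ) + 1 / 2) / 2 ^ m, ((z.2 : ℝ) + 1 / 2) / 2 ^ m⟩ with hcz
      have hcre : cz.re = ((z.1 : ℝ) + 1 / 2) / 2 ^ m := rfl
      have hcim : cz.im = ((z.2 : ℝ) + 1 / 2) / 2 ^ m := rfl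
      have hsub : {y : ℂ | pc m y = z} ⊆ Metric.closedBall cz (1 / 2 ^ m) := by
        intro y hy
        have hy' : pc m y = z := hy
        rw [Metric.mem_closedBall, dist_eq_norm]
        have e1 : ⌊(2 : ℝ) ^ m * y.re⌋ = z.1 := congrArg Prod.fst hy'
        have e2 : ⌊(2 : ℝ) ^ m * y.im⌋ = z.2 := congrArg Prod.snd hy'
        have f1 : |(y - cz).re| ≤ 1 / 2 / 2 ^ m := by
          rw [le_div_iff₀ h2, habs]
          have : (y - cz).re * 2 ^ m = 2 ^ m * y.re - (z.1 + 1 / 2) := by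
            rw [Complex.sub_re, hcre]; field_simp
          rw [this, ← e1, abs_le]
          have a1 := Int.floor_le ((2 : ℝ) ^ m * y.re)
          have a2 := Int.lt_floor_add_one ((2 : ℝ) ^ m * y.re)
          constructor <;> linarith
        have f2 : |(y - cz).im| ≤ 1 / 2 / 2 ^ m := by
          rw [le_div_iff₀ h2, habs]
          have : (y - cz).im * 2 ^ m = 2 ^ m * y.im - (z.2 + 1 / 2) := by
            rw [Complex.sub_im, hcim]; field_simp
          rw [this, ← e2, abs_le]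
          have a1 := Int.floor_le ((2 : ℝ) ^ m * y.im)
          have a2 := Int.lt_floor_add_one ((2 : ℝ) ^ m * y.im)
          constructor <;> linarith
        have h4 := Complex.norm_le_abs_re_add_abs_im (y - cz)
        have h5 : (1 : ℝ) / 2 ^ m = 1 / 2 / 2 ^ m + 1 / 2 / 2 ^ m := by ring
        linarith
      refine (measure_mono hsub).trans (le_of_eq ?_)
      rw [Complex.volume_closedBall]
      have h4 : (4 : ℝ) ^ m = 2 ^ m * 2 ^ m := by rw [← mul_pow]; norm_num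
      rw [← ENNReal.ofReal_pow (by positivity)]
      have h5 : ((NNReal.pi : NNReal) : ENNReal) = ENNReal.ofReal Real.pi := by
        rw [← NNReal.coe_real_pi, ENNReal.ofReal_coe_nnreal]
      rw [h5, ← ENNReal.ofReal_mul (by positivity)]
      congr 1
      rw [h4]
      field_simp
    have h6 : volume S ≤ ENNReal.ofReal (X.card * (Real.pi / 4 ^ m)) := by
      refine (measure_mono hcov).trans ((measure_biUnion_finset_le _ _).trans ?_)
      refine (Finset.sum_le_sum hcell).trans (le_of_eq ?_)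
      rw [Finset.sum_const, nsmul_eq_mul, ENNReal.ofReal_mul (by positivity),
        ENNReal.ofReal_natCast]
    have h7 := hv.trans h6
    rw [ENNReal.ofReal_le_ofReal_iff (by positivity)] at h7
    have hpi := Real.pi_pos
    have h8 : Real.pi * (4 : ℝ) ^ m ≤ Real.pi * (4 * X.card) := by
      have h9 : (X.card : ℝ) * (Real.pi / 4 ^ m) = X.card * Real.pi / 4 ^ m := by ring
      rw [h9, le_div_iff₀ (by positivity)] at h7
      linarith
    exact le_of_mul_le_mul_left h8 hpi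
  · intro z hz
    obtain ⟨-, h1, h3, -⟩ := hrθ z hz
    exact ⟨h1, h3⟩
  · intro i z _
    exact Finset.filter_subset _ _
  · -- long sides give many cells
    intro i z hz
    obtain ⟨hr, -, -, hvol⟩ := hrθ z hz
    have hr0 : 0 < r z := by linarith
    have h1 := hvol i
    have hcov : {t : ℝ | side (xx z) (r z) (θ z) i t ∈ K} ⊆
        ⋃ w ∈ E i z, {t : ℝ | pc m (side (xx z) (r z) (θ z) i t) = w} := by
      intro t ht
      rw [mem_iUnion₂]
      refine ⟨pc m (side (xx z) (r z) (θ z) i t), ?_, rfl⟩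
      rw [hE, Finset.mem_filter]
      exact ⟨hG _ ht, t, ht, rfl⟩
    have hd : ∀ w ∈ E i z, volume {t : ℝ | pc m (side (xx z) (r z) (θ z) i t) = w} ≤
        ENNReal.ofReal (2 / 2 ^ m / ρ) := by
      intro w _
      refine (Real.volume_le_diam _).trans (Metric.ediam_le ?_)
      intro t ht t' ht'
      have h4 := pc_dist (ht.trans ht'.symm)
      rw [side_sub _ hr0.le] at h4
      rw [edist_dist, Real.dist_eq]
      apply ENNReal.ofReal_le_ofReal
      rw [le_div_iff₀ hρ]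
      have h5 := abs_nonneg (t - t')
      nlinarith
    have h6 : (1 : ENNReal) ≤ ENNReal.ofReal ((E i z).card * (2 / 2 ^ m / ρ)) := by
      refine h1.trans ((measure_mono hcov).trans ((measure_biUnion_finset_le _ _).trans ?_))
      refine (Finset.sum_le_sum hd).trans (le_of_eq ?_)
      rw [Finset.sum_const, nsmul_eq_mul, ENNReal.ofReal_mul (by positivity),
        ENNReal.ofReal_natCast]
    rw [← ENNReal.ofReal_one, ENNReal.ofReal_le_ofReal_iff (by positivity)] at h6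
    have h7 : ((E i z).card : ℝ) * (2 / 2 ^ m / ρ) = ((E i z).card : ℝ) * 2 / (2 ^ m * ρ) := by
      field_simp
    rw [h7, le_div_iff₀ (by positivity)] at h6
    linarith
  · intro i z hz w hw
    obtain ⟨-, t, htK, htw⟩ := Finset.mem_filter.1 hw
    have e1 : ⌊(2 : ℝ) ^ m * (side (xx z) (r z) (θ z) i t).re⌋ = w.1 := congrArg Prod.fst htw
    have e2 : ⌊(2 : ℝ) ^ m * (side (xx z) (r z) (θ z) i t).im⌋ = w.2 := congrArg Prod.snd htw
    have hn := hK _ htK
    have hre := (Complex.abs_re_le_norm _).trans hn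
    have him := (Complex.abs_im_le_norm _).trans hn
    set y := side (xx z) (r z) (θ z) i t with hy
    have a1 := Int.floor_le ((2 : ℝ) ^ m * y.re)
    have a2 := Int.lt_floor_add_one ((2 : ℝ) ^ m * y.re)
    have b1 := Int.floor_le ((2 : ℝ) ^ m * y.im)
    have b2 := Int.lt_floor_add_one ((2 : ℝ) ^ m * y.im)
    rw [e1] at a1 a2
    rw [e2] at b1 b2
    refine ⟨?_, ?_, ?_⟩
    · unfold InStrip pos
      set φ : ℝ := θ z + (i : ℕ) * (Real.pi / 2) with hφ
      have hcs := Real.cos_sq_add_sin_sq φ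
      have g1 : y.re * Real.cos φ + y.im * Real.sin φ =
          (xx z).re * Real.cos φ + (xx z).im * Real.sin φ + r z := by
        rw [hy, side_re, side_im, ← hφ]
        linear_combination (r z) * hcs
      have g2 : (w.1 : ℝ) * Real.cos φ + (w.2 : ℝ) * Real.sin φ -
          2 ^ m * ((xx z).re * Real.cos φ + (xx z).im * Real.sin φ + r z) =
          ((w.1 : ℝ) - 2 ^ m * y.re) * Real.cos φ + ((w.2 : ℝ) - 2 ^ m * y.im) * Real.sin φ := by
        rw [← g1]; ring
      rw [g2]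
      have g3 : |((w.1 : ℝ) - 2 ^ m * y.re) * Real.cos φ| ≤ 1 := by
        rw [abs_mul]
        have u1 : |(w.1 : ℝ) - 2 ^ m * y.re| ≤ 1 := by rw [abs_le]; constructor <;> linarith
        have u2 := Real.abs_cos_le_one φ
        have u3 := abs_nonneg ((w.1 : ℝ) - 2 ^ m * y.re)
        have u4 := abs_nonneg (Real.cos φ)
        nlinarith
      have g4 : |((w.2 : ℝ) - 2 ^ m * y.im) * Real.sin φ| ≤ 1 := by
        rw [abs_mul]
        have u1 : |(w.2 : ℝ) - 2 ^ m * y.im| ≤ 1 := by rw [abs_le]; constructor <;> linarith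
        have u2 := Real.abs_sin_le_one φ
        have u3 := abs_nonneg ((w.2 : ℝ) - 2 ^ m * y.im)
        have u4 := abs_nonneg (Real.sin φ)
        nlinarith
      refine (abs_add_le _ _).trans ?_
      linarith
    · rw [abs_le] at hre ⊢
      constructor <;> nlinarith [hre.1, hre.2]
    · rw [abs_le] at him ⊢
      constructor <;> nlinarith [him.1, him.2]

end Pool.Agent.V11202.SQ
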