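import Pool.Agent.V11202.SQ.L2

/-!
Heavy dyadic cells and the counting inside windows of directions.
-/

set_option autoImplicit false

open Finset

namespace Pool.Agent.V11202.SQ

/-- heavy cells -/
noncomputable def Hv {ι : Type*} (X : Finset ι) (f : ι → ℤ × ℤ) (c Y : ℝ) :
    Finset (ℤ × ℤ) := by
  classical
  exact (X.image f).filter (fun q => Y < c * ((X.filter (fun z => f z = q)).card : ℝ))

theorem mem_Hv {ι : Type*} [DecidableEq ι] {X : Finset ι} {f : ι → ℤ × ℤ} {c Y : ℝ} {z : ι}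
    (hz : z ∈ X) (h : Y < c * ((X.filter (fun z' => f z' = f z)).card : ℝ)) :
    f z ∈ Hv X f c Y := by
  classical
  unfold Hv
  rw [mem_filter]
  exact ⟨mem_image_of_mem _ hz, h⟩

theorem Hv_card {ι : Type*} (X : Finset ι) (f : ι → ℤ × ℤ) {c Y : ℝ} (hc : 0 ≤ c) (hY : 0 < Y) :
    ((Hv X f c Y).card : ℝ) ≤ (X.card : ℝ) / Y * c := by
  classical
  unfold Hv
  set Q := (X.image f).filter (fun q => Y < c * ((X.filter (fun z => f z = q)).card : ℝ)) with hQ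
  have h1 : (Q.card : ℝ) * Y ≤ ∑ q ∈ Q, c * ((X.filter (fun z => f z = q)).card : ℝ) := by
    rw [← nsmul_eq_mul]
    exact card_nsmul_le_sum _ _ _ fun q hq => (mem_filter.1 hq).2.le
  have h2 : ∑ q ∈ Q, c * ((X.filter (fun z => f z = q)).card : ℝ) ≤
      ∑ q ∈ X.image f, c * ((X.filter (fun z => f z = q)).card : ℝ) :=
    sum_le_sum_of_subset_of_nonneg (filter_subset _ _) fun _ _ _ => by positivity
  have h3 : ∑ q ∈ X.image f, c * ((X.filter (fun z => f z = q)).card : ℝ) = c * X.card := by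
    rw [← mul_sum]
    congr 1
    rw [card_eq_sum_card_image f X]
    push_cast
    rfl
  have h4 : (Q.card : ℝ) * Y ≤ c * X.card := by linarith
  have h5 : (X.card : ℝ) / Y * c = c * X.card / Y := by ring
  rw [h5, le_div_iff₀ hY]
  exact h4

theorem parent (k l : ℕ) (hkl : k ≤ l) (x : ℝ) :
    ⌊(2 : ℝ) ^ k * x⌋ = ⌊(2 : ℝ) ^ l * x⌋ / (2 ^ (l - k) : ℕ) := by
  rw [← Int.floor_div_natCast]
  congr 1
  push_cast
  have : (2 : ℝ) ^ l = 2 ^ k * 2 ^ (l - k) := by rw [← pow_add, Nat.add_sub_cancel' hkl]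
  rw [this]
  field_simp

/-- the cells of a coarse level containing heavy cells of a fine level -/
theorem sum_bound {ι : Type*} [DecidableEq ι] (X : Finset ι) (θ p : ι → ℝ) {lv K : ℕ}
    (hK : lv ≤ K) (Hs : Finset (ℤ × ℤ)) (hH : ∀ z ∈ X, cell K θ p z ∈ Hs) :
    ∑ j ∈ X.image (fun z => ⌊(2 : ℝ) ^ lv * θ z⌋),
      (((X.filter (fun z => ⌊(2 : ℝ) ^ lv * θ z⌋ = j)).image
        (fun z => ⌊(2 : ℝ) ^ lv * p z⌋)).card : ℝ) ≤ Hs.card := by
  classical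
  set W := X.image (cell lv θ p) with hW
  have h1 : W.card = ∑ j ∈ X.image (fun z => ⌊(2 : ℝ) ^ lv * θ z⌋),
      (W.filter (fun q => q.1 = j)).card := by
    apply card_eq_sum_card_fiberwise
    intro q hq
    obtain ⟨z, hz, rfl⟩ := mem_image.1 (mem_coe.1 hq)
    exact mem_coe.2 (mem_image_of_mem (fun z => ⌊(2 : ℝ) ^ lv * θ z⌋) hz)
  have h2 : W.card ≤ Hs.card := by
    have : W ⊆ Hs.image (fun q => (q.1 / (2 ^ (K - lv) : ℕ), q.2 / (2 ^ (K - lv) : ℕ))) := by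
      intro q hq
      obtain ⟨z, hz, rfl⟩ := mem_image.1 hq
      rw [mem_image]
      refine ⟨cell K θ p z, hH z hz, ?_⟩
      unfold cell
      rw [parent lv K hK, parent lv K hK]
    exact (card_le_card this).trans card_image_le
  have h3 : ∑ j ∈ X.image (fun z => ⌊(2 : ℝ) ^ lv * θ z⌋),
      ((X.filter (fun z => ⌊(2 : ℝ) ^ lv * θ z⌋ = j)).image
        (fun z => ⌊(2 : ℝ) ^ lv * p z⌋)).card ≤ W.card := by
    rw [h1]
    apply sum_le_sum
    intro j _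
    apply card_le_card_of_injOn (fun P => (j, P))
    · intro P hP
      simp only [coe_image, coe_filter, Set.mem_image, Set.mem_ofPred_eq] at hP
      obtain ⟨z, ⟨hz, hj⟩, rfl⟩ := hP
      rw [mem_coe, mem_filter]
      refine ⟨?_, rfl⟩
      rw [hW, mem_image]
      refine ⟨z, hz, ?_⟩
      unfold cell
      rw [hj]
    · intro a _ b _ hab
      exact (Prod.mk.inj hab).2
  exact_mod_cast h3.trans h2

/-- inside one window, the positions of a fine level under heavy cells of a coarse level -/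
theorem sup_bound {ι : Type*} [DecidableEq ι] (X : Finset ι) (θ p : ι → ℝ) {lv K : ℕ}
    (hK : K ≤ lv) (Hs : Finset (ℤ × ℤ)) (hH : ∀ z ∈ X, cell K θ p z ∈ Hs) :
    ((X.image (fun z => ⌊(2 : ℝ) ^ lv * p z⌋)).card : ℝ) ≤ Hs.card * 2 ^ (lv - K) := by
  classical
  have hsub : X.image (fun z => ⌊(2 : ℝ) ^ lv * p z⌋) ⊆
      Hs.biUnion (fun q => Finset.Ico (q.2 * (2 ^ (lv - K) : ℕ)) ((q.2 + 1) * (2 ^ (lv - K) : ℕ))) := by
    intro P hP
    obtain ⟨z, hz, rfl⟩ := mem_image.1 hP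
    rw [mem_biUnion]
    refine ⟨cell K θ p z, hH z hz, ?_⟩
    unfold cell
    simp only
    rw [parent K lv hK, mem_Ico]
    have hpos : (0 : ℤ) < ((2 ^ (lv - K) : ℕ) : ℤ) := by positivity
    constructor
    · exact Int.ediv_mul_le _ hpos.ne'
    · exact Int.lt_ediv_add_one_mul_self _ hpos
  have h1 : (X.image (fun z => ⌊(2 : ℝ) ^ lv * p z⌋)).card ≤ Hs.card * 2 ^ (lv - K) := by
    refine (card_le_card hsub).trans ((card_biUnion_le_card_mul _ _ (2 ^ (lv - K)) ?_))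
    intro q _
    rw [Int.card_Ico]
    have : (q.2 + 1) * ((2 ^ (lv - K) : ℕ) : ℤ) - q.2 * ((2 ^ (lv - K) : ℕ) : ℤ) =
        ((2 ^ (lv - K) : ℕ) : ℤ) := by ring
    rw [this, Int.toNat_natCast]
  exact_mod_cast h1

/-- position of the side number `i` -/
noncomputable def pos {ι : Type*} (x1 x2 θ r : ι → ℝ) (i : Fin 4) (z : ι) : ℝ :=
  x1 z * Real.cos (θ z + (i : ℕ) * (Real.pi / 2)) + x2 z * Real.sin (θ z + (i : ℕ) * (Real.pi / 2)) +
    r z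

theorem pos0 {ι : Type*} (x1 x2 θ r : ι → ℝ) (z : ι) :
    pos x1 x2 θ r 0 z = x1 z * Real.cos (θ z) + x2 z * Real.sin (θ z) + r z := by
  simp [pos]

theorem pos1 {ι : Type*} (x1 x2 θ r : ι → ℝ) (z : ι) :
    pos x1 x2 θ r 1 z = -x1 z * Real.sin (θ z) + x2 z * Real.cos (θ z) + r z := by
  have e : ((1 : Fin 4) : ℕ) = 1 := rfl
  rw [pos, e, Nat.cast_one, one_mul, Real.cos_add_pi_div_two, Real.sin_add_pi_div_two]
  ring

theorem pos2 {ι : Type*} (x1 x2 θ r : ι → ℝ) (z : ι) :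
    pos x1 x2 θ r 2 z = -x1 z * Real.cos (θ z) - x2 z * Real.sin (θ z) + r z := by
  have e : ((2 : Fin 4) : ℕ) = 2 := rfl
  have e2 : θ z + ((2 : ℕ) : ℝ) * (Real.pi / 2) = θ z + Real.pi := by push_cast; ring
  rw [pos, e, e2, Real.cos_add_pi, Real.sin_add_pi]
  ring

theorem pos3 {ι : Type*} (x1 x2 θ r : ι → ℝ) (z : ι) :
    pos x1 x2 θ r 3 z = x1 z * Real.sin (θ z) - x2 z * Real.cos (θ z) + r z := by
  have e : ((3 : Fin 4) : ℕ) = 3 := rfl
  have e2 : θ z + ((3 : ℕ) : ℝ) * (Real.pi / 2) = θ z + Real.pi / 2 + Real.pi := by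
    push_cast; ring
  rw [pos, e, e2, Real.cos_add_pi, Real.sin_add_pi, Real.cos_add_pi_div_two,
    Real.sin_add_pi_div_two]
  ring

theorem floor_rel {a b c d : ℝ} (h : a + c = b + d) :
    |⌊a⌋ + ⌊c⌋ - ⌊b⌋ - ⌊d⌋| ≤ 1 := by
  have a1 := Int.floor_le a
  have a2 := Int.lt_floor_add_one a
  have b1 := Int.floor_le b
  have b2 := Int.lt_floor_add_one b
  have c1 := Int.floor_le c
  have c2 := Int.lt_floor_add_one c
  have d1 := Int.floor_le d
  have d2 := Int.lt_floor_add_one d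
  have h1 : ((⌊a⌋ + ⌊c⌋ - ⌊b⌋ - ⌊d⌋ : ℤ) : ℝ) < ((2 : ℤ) : ℝ) := by
    push_cast; linarith
  have h2 : ((-2 : ℤ) : ℝ) < ((⌊a⌋ + ⌊c⌋ - ⌊b⌋ - ⌊d⌋ : ℤ) : ℝ) := by
    push_cast; linarith
  have h3 := Int.cast_lt.1 h1
  have h4 := Int.cast_lt.1 h2
  rw [abs_le]
  omega

/-- few centres in one window have the same data -/
theorem fibre {m lv : ℕ} (hlv : lv ≤ m) (X : Finset (ℤ × ℤ)) (x1 x2 θ r : ℤ × ℤ → ℝ)
    (hx : ∀ z ∈ X, ⌊(2 : ℝ) ^ m * x1 z⌋ = z.1 ∧ ⌊(2 : ℝ) ^ m * x2 z⌋ = z.2 ∧ |x1 z| ≤ 1 ∧ |x2 z| ≤ 1)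
    (hj : ∀ z ∈ X, ∀ z' ∈ X, ⌊(2 : ℝ) ^ lv * θ z⌋ = ⌊(2 : ℝ) ^ lv * θ z'⌋) (s t : ℤ)
    (hs : ∀ z ∈ X, ⌊(2 : ℝ) ^ lv * pos x1 x2 θ r 0 z⌋ - ⌊(2 : ℝ) ^ lv * pos x1 x2 θ r 2 z⌋ = s)
    (ht : ∀ z ∈ X, ⌊(2 : ℝ) ^ lv * pos x1 x2 θ r 1 z⌋ - ⌊(2 : ℝ) ^ lv * pos x1 x2 θ r 3 z⌋ = t) :
    (X.card : ℝ) ≤ 64 * 4 ^ (m - lv) := by
  have h2l : (0 : ℝ) < 2 ^ lv := by positivity
  have habs : ∀ v : ℝ, (2 : ℝ) ^ lv * |v| = |(2 : ℝ) ^ lv * v| := by
    intro v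
    rw [abs_mul, abs_of_pos h2l]
  -- differences of centres
  have hd : ∀ z ∈ X, ∀ z' ∈ X, (2 : ℝ) ^ lv * |x1 z - x1 z'| ≤ 6 ∧
      (2 : ℝ) ^ lv * |x2 z - x2 z'| ≤ 6 := by
    intro z hz z' hz'
    have e1 : (2 : ℝ) ^ lv * |θ z - θ z'| ≤ 1 := by
      have a1 := Int.floor_le ((2 : ℝ) ^ lv * θ z)
      have a2 := Int.lt_floor_add_one ((2 : ℝ) ^ lv * θ z)
      have b1 := Int.floor_le ((2 : ℝ) ^ lv * θ z')
      have b2 := Int.lt_floor_add_one ((2 : ℝ) ^ lv * θ z')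
      rw [hj z hz z' hz'] at a1 a2
      rw [habs, abs_le]
      constructor <;> linarith
    have hc : (2 : ℝ) ^ lv * |Real.cos (θ z) - Real.cos (θ z')| ≤ 1 :=
      (mul_le_mul_of_nonneg_left (Real.abs_cos_sub_cos_le _ _) h2l.le).trans e1
    have hsn : (2 : ℝ) ^ lv * |Real.sin (θ z) - Real.sin (θ z')| ≤ 1 :=
      (mul_le_mul_of_nonneg_left (Real.abs_sin_sub_sin_le _ _) h2l.le).trans e1
    obtain ⟨-, -, q1, q2⟩ := hx z' hz'
    set c := Real.cos (θ z)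
    set c' := Real.cos (θ z')
    set n := Real.sin (θ z)
    set n' := Real.sin (θ z')
    -- bilinear error terms
    have err : ∀ y v : ℝ, |y| ≤ 1 → (2 : ℝ) ^ lv * |v| ≤ 1 → |(2 : ℝ) ^ lv * (y * v)| ≤ 1 := by
      intro y v hy hv
      rw [abs_mul, abs_mul, abs_of_pos h2l]
      have := abs_nonneg v
      have h3 := abs_nonneg y
      nlinarith [mul_nonneg h2l.le this]
    have f1 := err (x1 z') (c - c') q1 hc
    have f2 := err (x2 z') (n - n') q2 hsn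
    have f3 := err (x1 z') (n - n') q1 hsn
    have f4 := err (x2 z') (c - c') q2 hc
    have g1 := hs z hz
    have g2 := hs z' hz'
    have g3 := ht z hz
    have g4 := ht z' hz'
    rw [pos0, pos2] at g1 g2
    rw [pos1, pos3] at g3 g4
    have k1 := fun y : ℝ => Int.floor_le y
    have k2 := fun y : ℝ => Int.lt_floor_add_one y
    have u1 : |(2 : ℝ) ^ lv * ((x1 z - x1 z') * c + (x2 z - x2 z') * n)| ≤ 3 := by
      have g1' : ((⌊(2 : ℝ) ^ lv * (x1 z * c + x2 z * n + r z)⌋ : ℤ) : ℝ) -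
        ⌊(2 : ℝ) ^ lv * (-x1 z * c - x2 z * n + r z)⌋ = s := by exact_mod_cast g1
      have g2' : ((⌊(2 : ℝ) ^ lv * (x1 z' * c' + x2 z' * n' + r z')⌋ : ℤ) : ℝ) -
        ⌊(2 : ℝ) ^ lv * (-x1 z' * c' - x2 z' * n' + r z')⌋ = s := by exact_mod_cast g2
      have l1 := k1 ((2 : ℝ) ^ lv * (x1 z * c + x2 z * n + r z))
      have l2 := k2 ((2 : ℝ) ^ lv * (x1 z * c + x2 z * n + r z))
      have l3 := k1 ((2 : ℝ) ^ lv * (-x1 z * c - x2 z * n + r z))
      have l4 := k2 ((2 : ℝ) ^ lv * (-x1 z * c - x2 z * n + r z))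
      have l5 := k1 ((2 : ℝ) ^ lv * (x1 z' * c' + x2 z' * n' + r z'))
      have l6 := k2 ((2 : ℝ) ^ lv * (x1 z' * c' + x2 z' * n' + r z'))
      have l7 := k1 ((2 : ℝ) ^ lv * (-x1 z' * c' - x2 z' * n' + r z'))
      have l8 := k2 ((2 : ℝ) ^ lv * (-x1 z' * c' - x2 z' * n' + r z'))
      rw [abs_le] at f1 f2 ⊢
      constructor <;> nlinarith [f1.1, f1.2, f2.1, f2.2]
    have u2 : |(2 : ℝ) ^ lv * (-(x1 z - x1 z') * n + (x2 z - x2 z') * c)| ≤ 3 := by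
      have g3' : ((⌊(2 : ℝ) ^ lv * (-x1 z * n + x2 z * c + r z)⌋ : ℤ) : ℝ) -
        ⌊(2 : ℝ) ^ lv * (x1 z * n - x2 z * c + r z)⌋ = t := by exact_mod_cast g3
      have g4' : ((⌊(2 : ℝ) ^ lv * (-x1 z' * n' + x2 z' * c' + r z')⌋ : ℤ) : ℝ) -
        ⌊(2 : ℝ) ^ lv * (x1 z' * n' - x2 z' * c' + r z')⌋ = t := by exact_mod_cast g4
      have l1 := k1 ((2 : ℝ) ^ lv * (-x1 z * n + x2 z * c + r z))
      have l2 := k2 ((2 : ℝ) ^ lv * (-x1 z * n + x2 z * c + r z))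
      have l3 := k1 ((2 : ℝ) ^ lv * (x1 z * n - x2 z * c + r z))
      have l4 := k2 ((2 : ℝ) ^ lv * (x1 z * n - x2 z * c + r z))
      have l5 := k1 ((2 : ℝ) ^ lv * (-x1 z' * n' + x2 z' * c' + r z'))
      have l6 := k2 ((2 : ℝ) ^ lv * (-x1 z' * n' + x2 z' * c' + r z'))
      have l7 := k1 ((2 : ℝ) ^ lv * (x1 z' * n' - x2 z' * c' + r z'))
      have l8 := k2 ((2 : ℝ) ^ lv * (x1 z' * n' - x2 z' * c' + r z'))
      rw [abs_le] at f3 f4 ⊢
      constructor <;> nlinarith [f3.1, f3.2, f4.1, f4.2]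
    set U := (2 : ℝ) ^ lv * ((x1 z - x1 z') * c + (x2 z - x2 z') * n) with hU
    set V := (2 : ℝ) ^ lv * (-(x1 z - x1 z') * n + (x2 z - x2 z') * c) with hV
    have hcs : c ^ 2 + n ^ 2 = 1 := Real.cos_sq_add_sin_sq (θ z)
    have w1 : (2 : ℝ) ^ lv * (x1 z - x1 z') = U * c - V * n := by
      rw [hU, hV]; linear_combination (-(2 : ℝ) ^ lv * (x1 z - x1 z')) * hcs
    have w2 : (2 : ℝ) ^ lv * (x2 z - x2 z') = U * n + V * c := by
      rw [hU, hV]; linear_combination (-(2 : ℝ) ^ lv * (x2 z - x2 z')) * hcs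
    have hc1 : |c| ≤ 1 := Real.abs_cos_le_one _
    have hn1 : |n| ≤ 1 := Real.abs_sin_le_one _
    have hmul : ∀ x y : ℝ, |x| ≤ 3 → |y| ≤ 1 → |x * y| ≤ 3 := by
      intro x y hx hy
      rw [abs_mul]
      have := abs_nonneg x
      have := abs_nonneg y
      nlinarith
    constructor
    · rw [habs, w1]
      refine (abs_sub _ _).trans ?_
      have := hmul U c u1 hc1
      have := hmul V n u2 hn1
      linarith
    · rw [habs, w2]
      refine (abs_add_le _ _).trans ?_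
      have := hmul U n u1 hn1
      have := hmul V c u2 hc1
      linarith
  have h2d : (2 : ℝ) ^ m = 2 ^ lv * 2 ^ (m - lv) := by rw [← pow_add, Nat.add_sub_cancel' hlv]
  have hd1 : (1 : ℝ) ≤ 2 ^ (m - lv) := one_le_pow₀ (by norm_num)
  have hz : ∀ (f : ℤ × ℤ → ℝ) (g : ℤ × ℤ → ℤ), (∀ z ∈ X, ⌊(2 : ℝ) ^ m * f z⌋ = g z) →
      (∀ z ∈ X, ∀ z' ∈ X, (2 : ℝ) ^ lv * |f z - f z'| ≤ 6) →
      (((X.image g).card : ℝ)) ≤ 8 * 2 ^ (m - lv) := by
    intro f g hf hfd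
    have := card_le_of_diff (X.image g) (L := 7 * 2 ^ (m - lv)) (by positivity) (by
      intro a ha b hb
      obtain ⟨z, hz, rfl⟩ := mem_image.1 ha
      obtain ⟨z', hz', rfl⟩ := mem_image.1 hb
      rw [← hf z hz, ← hf z' hz']
      have k1 := Int.floor_le ((2 : ℝ) ^ m * f z)
      have k2 := Int.lt_floor_add_one ((2 : ℝ) ^ m * f z')
      have k3 := hfd z hz z' hz'
      have k4 : (2 : ℝ) ^ m * f z - 2 ^ m * f z' ≤ 6 * 2 ^ (m - lv) := by
        have k5 : (2 : ℝ) ^ m * f z - 2 ^ m * f z' = 2 ^ (m - lv) * (2 ^ lv * (f z - f z')) := by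
          rw [h2d]; ring
        have k6 : (2 : ℝ) ^ lv * (f z - f z') ≤ 6 :=
          (mul_le_mul_of_nonneg_left (le_abs_self _) h2l.le).trans k3
        rw [k5]
        nlinarith
      linarith)
    linarith
  have hA := hz x1 Prod.fst (fun z hz => (hx z hz).1) (fun z hz z' hz' => (hd z hz z' hz').1)
  have hB := hz x2 Prod.snd (fun z hz => (hx z hz).2.1) (fun z hz z' hz' => (hd z hz z' hz').2)
  have hsub : X ⊆ (X.image Prod.fst) ×ˢ (X.image Prod.snd) := by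
    intro z hz
    exact mem_product.2 ⟨mem_image_of_mem _ hz, mem_image_of_mem _ hz⟩
  have hcard := card_le_card hsub
  rw [card_product] at hcard
  have h3 : (X.card : ℝ) ≤ ((X.image Prod.fst).card : ℝ) * ((X.image Prod.snd).card : ℝ) := by
    exact_mod_cast hcard
  have e4 : (4 : ℝ) ^ (m - lv) = 2 ^ (m - lv) * 2 ^ (m - lv) := by
    rw [← mul_pow]; norm_num
  refine h3.trans ((mul_le_mul hA hB (by positivity) (by positivity)).trans (le_of_eq ?_))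
  rw [e4]; ring

end Pool.Agent.V11202.SQ
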